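import Pool.Agent.Y113.P.Prod

/-!
# Project GF: the G-systems of the monomials
-/

set_option autoImplicit false

open PowerSeries Finset.HasAntidiagonal

namespace Pool.Agent.Y113

lemma pow_base (g : ℕ) (a E : ℕ) : (2 * ((g : ℝ) + 2) ^ a) ^ E ≤ ((g : ℝ) + 2) ^ ((a + 1) * E) := by
  rw [pow_mul]
  refine pow_le_pow_left₀ (by positivity) ?_ _
  rw [pow_succ']
  have : (0 : ℝ) ≤ g := by positivity
  exact mul_le_mul_of_nonneg_right (by linarith) (by positivity)

lemma base_mono {h : ℝ} (hh : 1 ≤ h) {a b : ℕ} (hab : a ≤ b) : h ^ a ≤ h ^ b := pow_le_pow_right₀ hh hab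

lemma one_le_base (g : ℕ) : (1 : ℝ) ≤ (g : ℝ) + 2 := by
  have : (0 : ℝ) ≤ g := by positivity
  linarith

/-- the constant family -/
lemma GSys.const {ι : Type} [Fintype ι] [Unique ι] {q : ℕ} {C : ℝ} {T : Polynomial ℤ} (hC : 1 ≤ C)
    (hT : T.natDegree ≤ q) (hT' : ∀ l, |((T.coeff l : ℤ) : ℝ)| ≤ C) : GSys q C T (fun _ : ι => 1) := by
  refine ⟨hC, hT, hT', fun i m => ?_, fun m => ?_, fun k => ?_⟩
  · rw [coeff_one]
    split_ifs
    · simpa using one_le_pow₀ hC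
    · simp; positivity
  · refine ⟨1, one_pos, by simpa using one_le_pow₀ hC, fun i j _ => ?_⟩
    rw [coeff_one]
    split_ifs
    · exact ⟨1, by simp⟩
    · exact ⟨0, by simp⟩
  · refine ⟨1, one_pos, by simpa using one_le_pow₀ hC, fun s _ => ?_⟩
    refine ⟨fun _ _ => if s = 0 then 1 else 0, fun i j => ?_, fun i j l => ?_, fun i => ?_⟩
    · split_ifs <;> simp
    · have h1 : (1 : ℝ) ≤ C ^ (k + 1) := one_le_pow₀ hC
      split_ifs
      · rw [Polynomial.coeff_one]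
        split_ifs
        · simpa using h1
        · simp; positivity
      · simp; positivity
    · rcases Nat.eq_zero_or_pos s with rfl | hs
      · simp [hd_zero, ps_one]
      · have h1 : hd s (1 : ℚ⟦X⟧) = 0 := by
          ext m
          rw [coeff_hd, coeff_one, if_neg (by omega)]
          simp
        rw [h1, if_neg (by omega)]
        simp [ps_zero]

/-- all products of `Δ` functions of the base family -/
lemma gsys_words (hb : T_base) (Δ : ℕ) : ∃ E : ℕ, ∀ g : ℕ,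
    GSys 3 (((g : ℝ) + 2) ^ E) (TT g) (fun f : Fin Δ → Fin 5 => ∏ i, base g (f i)) := by
  obtain ⟨E₀, hE₀⟩ := hb
  obtain ⟨E₁, hE₁⟩ := t_prod 3
  induction Δ with
  | zero =>
    refine ⟨E₀, fun g => ?_⟩
    have h1 := GSys.const (ι := Fin 0 → Fin 5) (hE₀ g).one_le (hE₀ g).degT (hE₀ g).sizeT
    simpa using h1
  | succ Δ ih =>
    obtain ⟨E, hE⟩ := ih
    refine ⟨(max E₀ E + 1) * E₁, fun g => ?_⟩
    have h1 := (hE₀ g).mono le_rfl (base_mono (one_le_base g) (le_max_left E₀ E))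
    have h2 := (hE g).mono le_rfl (base_mono (one_le_base g) (le_max_right E₀ E))
    have h3 := (hE₁ _ _ _ _ _ _ h1 h2).mono le_rfl (pow_base g _ _)
    have h4 := h3.reindex (Fin.consEquiv fun _ => Fin 5).symm
    have h5 : (fun f : Fin (Δ + 1) → Fin 5 => ∏ i, base g (f i)) = fun j =>
        base g ((Fin.consEquiv fun _ => Fin 5).symm j).1 * ∏ i, base g (((Fin.consEquiv fun _ => Fin 5).symm j).2 i) := by
      funext f
      rw [Fin.prod_univ_succ]
      rfl
    rw [h5]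
    exact h4

lemma exists_word (Δ : ℕ) : ∀ e : Fin 4 → ℕ, ∑ i, e i ≤ Δ → ∃ f : Fin Δ → Fin 5, ∀ z : Fin 4 → ℚ⟦X⟧,
    ∏ i, (Fin.cons (1 : ℚ⟦X⟧) z : Fin 5 → ℚ⟦X⟧) (f i) = ∏ i, z i ^ e i := by
  induction Δ with
  | zero =>
    intro e he
    have h1 : ∀ i, e i = 0 := fun i => by
      have := Finset.single_le_sum (f := e) (fun _ _ => Nat.zero_le _) (Finset.mem_univ i)
      omega
    exact ⟨fun i => 0, fun z => by simp [h1]⟩
  | succ Δ ih =>
    intro e he
    by_cases h0 : ∀ i, e i = 0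
    · exact ⟨fun i => 0, fun z => by simp [h0]⟩
    · push Not at h0
      obtain ⟨i₀, hi₀⟩ := h0
      have e1 : e = Function.update e i₀ (e i₀ - 1) + Pi.single i₀ 1 := by
        funext i
        by_cases hi : i = i₀
        · subst hi; simp; omega
        · simp [hi]
      have e2 : ∑ i, e i = (∑ i, Function.update e i₀ (e i₀ - 1) i) + 1 := by
        conv_lhs => rw [e1]
        simp [Finset.sum_add_distrib]
      obtain ⟨f, hf⟩ := ih (Function.update e i₀ (e i₀ - 1)) (by omega)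
      refine ⟨Fin.cons i₀.succ f, fun z => ?_⟩
      rw [Fin.prod_univ_succ]
      simp only [Fin.cons_zero, Fin.cons_succ]
      rw [hf z]
      have e3 : ∏ i, z i ^ e i = (∏ i, z i ^ (Function.update e i₀ (e i₀ - 1)) i) * ∏ i, z i ^ (Pi.single i₀ 1 : Fin 4 → ℕ) i := by
        rw [← Finset.prod_mul_distrib]
        refine Finset.prod_congr rfl fun i _ => ?_
        rw [← pow_add]
        congr 1
        exact congrFun e1 i
      have e4 : ∏ i, z i ^ (Pi.single i₀ 1 : Fin 4 → ℕ) i = z i₀ := by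
        rw [Finset.prod_eq_single i₀]
        · simp
        · intro j _ hj; simp [hj]
        · simp
      rw [e3, e4, mul_comm]

lemma word_exp (Δ : ℕ) : ∀ f : Fin Δ → Fin 5, ∃ e : Fin 4 → ℕ, ∑ i, e i ≤ Δ ∧ ∀ z : Fin 4 → ℚ⟦X⟧,
    ∏ i, (Fin.cons (1 : ℚ⟦X⟧) z : Fin 5 → ℚ⟦X⟧) (f i) = ∏ i, z i ^ e i := by
  induction Δ with
  | zero => exact fun f => ⟨fun _ => 0, by simp, fun z => by simp⟩
  | succ Δ ih =>
    intro f
    obtain ⟨e, he, he'⟩ := ih (fun i => f i.succ)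
    rcases Fin.eq_zero_or_eq_succ (f 0) with h0 | ⟨j, hj⟩
    · refine ⟨e, he.trans (by omega), fun z => ?_⟩
      rw [Fin.prod_univ_succ, h0, he' z]
      simp
    · refine ⟨e + Pi.single j 1, ?_, fun z => ?_⟩
      · simp [Finset.sum_add_distrib]; omega
      · rw [Fin.prod_univ_succ, hj, he' z]
        simp only [Fin.cons_succ, Pi.add_apply, pow_add, Finset.prod_mul_distrib]
        have e4 : ∏ i, z i ^ (Pi.single j 1 : Fin 4 → ℕ) i = z j := by
          rw [Finset.prod_eq_single j]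
          · simp
          · intro l _ hl; simp [hl]
          · simp
        rw [e4, mul_comm]

/-- reduction of the monomials by `u x = v w - 1` -/
lemma reduce (Δ : ℕ) : ∀ a b c d : ℕ, a + b + c + d ≤ Δ → ∃ co : Ex Δ → ℤ, (∀ s, |((co s : ℤ) : ℝ)| ≤ 2 ^ a) ∧
    ∀ u v w x : ℚ⟦X⟧, u * x - v * w = -1 → u ^ a * v ^ b * w ^ c * x ^ d =
      ∑ s : Ex Δ, (co s : ℚ⟦X⟧) * (u ^ (s.1 0 : ℕ) * v ^ (s.1 1 : ℕ) * w ^ (s.1 2 : ℕ) * x ^ (s.1 3 : ℕ)) := by
  have base_case : ∀ a b c d : ℕ, a + b + c + d ≤ Δ → a = 0 ∨ d = 0 → ∃ co : Ex Δ → ℤ,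
      (∀ s, |((co s : ℤ) : ℝ)| ≤ 2 ^ a) ∧
      ∀ u v w x : ℚ⟦X⟧, u * x - v * w = -1 → u ^ a * v ^ b * w ^ c * x ^ d =
      ∑ s : Ex Δ, (co s : ℚ⟦X⟧) * (u ^ (s.1 0 : ℕ) * v ^ (s.1 1 : ℕ) * w ^ (s.1 2 : ℕ) * x ^ (s.1 3 : ℕ)) := by
    intro a b c d h hz
    set s₀ : Ex Δ := ⟨![⟨a, by omega⟩, ⟨b, by omega⟩, ⟨c, by omega⟩, ⟨d, by omega⟩], by
      refine ⟨?_, ?_⟩
      · rw [Fin.sum_univ_four]; simpa using h
      · rcases hz with rfl | rfl
        · left; ext; simp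
        · right; ext; simp⟩ with hs₀
    obtain ⟨co, hc0, hc1⟩ : ∃ co : Ex Δ → ℤ, co s₀ = 1 ∧ ∀ s, s ≠ s₀ → co s = 0 :=
      ⟨fun s => if s = s₀ then 1 else 0, if_pos rfl, fun s hs => if_neg hs⟩
    refine ⟨co, fun s => ?_, fun u v w x _ => ?_⟩
    · have : (1 : ℝ) ≤ 2 ^ a := one_le_pow₀ (by norm_num)
      by_cases hs : s = s₀
      · rw [hs, hc0]; simpa using this
      · rw [hc1 s hs]; simp
    · rw [Finset.sum_eq_single s₀]
      · rw [hc0]
        simp [hs₀]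
      · intro s _ hs
        rw [hc1 s hs]
        simp
      · intro hs
        exact absurd (Finset.mem_univ _) hs
  intro a
  induction a with
  | zero => exact fun b c d h => base_case 0 b c d h (Or.inl rfl)
  | succ a ih =>
    intro b c d h
    rcases Nat.eq_zero_or_pos d with rfl | hd
    · exact base_case _ _ _ _ h (Or.inr rfl)
    · obtain ⟨d, rfl⟩ : ∃ d', d = d' + 1 := ⟨d - 1, by omega⟩
      obtain ⟨c1, h1, h1'⟩ := ih (b + 1) (c + 1) d (by omega)
      obtain ⟨c2, h2, h2'⟩ := ih b c d (by omega)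
      refine ⟨fun s => c1 s - c2 s, fun s => ?_, fun u v w x hux => ?_⟩
      · push_cast
        have := h1 s
        have := h2 s
        calc |((c1 s : ℤ) : ℝ) - c2 s| ≤ |((c1 s : ℤ) : ℝ)| + |((c2 s : ℤ) : ℝ)| := abs_sub _ _
          _ ≤ 2 ^ a + 2 ^ a := add_le_add (h1 s) (h2 s)
          _ = 2 ^ (a + 1) := by ring
      · have e1 : u ^ (a + 1) * v ^ b * w ^ c * x ^ (d + 1) =
            u ^ a * v ^ (b + 1) * w ^ (c + 1) * x ^ d - u ^ a * v ^ b * w ^ c * x ^ d := by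
          have e2 : u * x = v * w - 1 := by linear_combination hux
          calc u ^ (a + 1) * v ^ b * w ^ c * x ^ (d + 1) = u ^ a * v ^ b * w ^ c * x ^ d * (u * x) := by ring
            _ = _ := by rw [e2]; ring
        rw [e1, h1' u v w x hux, h2' u v w x hux, ← Finset.sum_sub_distrib]
        refine Finset.sum_congr rfl fun s _ => ?_
        push_cast
        ring

lemma Ex.sum_le {Δ : ℕ} (e : Ex Δ) : ∑ i, (e.1 i : ℕ) ≤ Δ := e.2.1

/-- the monomials in the four functions form a G-system -/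
lemma gsys_mon (ho : T_ode) (hb : T_base) (Δ : ℕ) : ∃ E : ℕ, ∀ g : ℕ,
    GSys 3 (((g : ℝ) + 2) ^ E) (TT g) (fun e : Ex Δ => mon g e) := by
  obtain ⟨E, hE⟩ := gsys_words hb Δ
  obtain ⟨E₁, hE₁⟩ := t_fam (max (Fintype.card (Fin Δ → Fin 5)) (Fintype.card (Ex Δ))) 3
  refine ⟨(E + Δ + 1) * E₁, fun g => ?_⟩
  have hg1 := one_le_base g
  have h1 := (hE g).mono le_rfl (base_mono hg1 (show E ≤ E + Δ by omega))
  -- the matrices
  have hM : ∀ e : Ex Δ, ∃ f : Fin Δ → Fin 5, ∏ i, base g (f i) = mon g e := by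
    intro e
    obtain ⟨f, hf⟩ := exists_word Δ (fun i => (e.1 i : ℕ)) e.sum_le
    exact ⟨f, hf (four g)⟩
  choose fM hfM using hM
  have hM' : ∀ f : Fin Δ → Fin 5, ∃ co : Ex Δ → ℤ, (∀ s, |((co s : ℤ) : ℝ)| ≤ 2 ^ Δ) ∧
      ∏ i, base g (f i) = ∑ s : Ex Δ, (co s : ℚ⟦X⟧) * mon g s := by
    intro f
    obtain ⟨e, he, he'⟩ := word_exp Δ f
    rw [Fin.sum_univ_four] at he
    obtain ⟨co, hc, hc'⟩ := reduce Δ (e 0) (e 1) (e 2) (e 3) he
    refine ⟨co, fun s => (hc s).trans (pow_le_pow_right₀ (by norm_num) (by omega)), ?_⟩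
    have e1 : ∏ i, base g (f i) = ∏ i, four g i ^ e i := he' (four g)
    rw [e1, Fin.prod_univ_four]
    refine (hc' (uu g) (vv g) (ww g) (xx g) (ho g).1).trans ?_
    refine Finset.sum_congr rfl fun s _ => ?_
    congr 1
    unfold mon
    rw [Fin.prod_univ_four]
    rfl
  choose co hco hco' using hM'
  classical
  have h2 := hE₁ (Fin Δ → Fin 5) (Ex Δ) (((g : ℝ) + 2) ^ (E + Δ)) (TT g) (fun f => ∏ i, base g (f i)) (fun e => mon g e)
    (fun e f => if f = fM e then 1 else 0) co (le_max_left _ _) (le_max_right _ _) h1 ?_ ?_ ?_ ?_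
  · exact h2.mono le_rfl (pow_base g _ _)
  · intro e f
    have : (1 : ℝ) ≤ ((g : ℝ) + 2) ^ (E + Δ) := one_le_pow₀ hg1
    split_ifs
    · simpa using this
    · simp; positivity
  · intro f s
    refine (hco f s).trans ?_
    calc (2 : ℝ) ^ Δ ≤ ((g : ℝ) + 2) ^ Δ := pow_le_pow_left₀ (by norm_num) (by linarith [show (0 : ℝ) ≤ g by positivity]) _
      _ ≤ _ := base_mono hg1 (by omega)
  · intro e
    rw [Finset.sum_eq_single (fM e)]
    · rw [if_pos rfl, ← hfM e]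
      simp
    · intro f _ hf
      rw [if_neg hf]
      simp
    · intro h
      exact absurd (Finset.mem_univ _) h
  · intro f
    exact hco' f

/-- the system of all monomials at several shifts -/
theorem fin_of (ho : T_ode) (hb : T_base) : T_fin := by
  intro k Δ
  obtain ⟨E₀, hE₀⟩ := gsys_mon ho hb Δ
  induction k with
  | zero =>
    refine ⟨0, 0, fun H g _ => ?_⟩
    have h1 : GSys 0 (1 : ℝ) 1 (fun _ : Fin 0 → Ex Δ => (1 : ℚ⟦X⟧)) := by
      refine GSys.const le_rfl (by simp) fun l => ?_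
      rw [Polynomial.coeff_one]
      split_ifs <;> simp
    have h2 : (pmon (Δ := Δ) g) = fun _ => 1 := by
      funext b
      simp [pmon]
    have h3 : PT g = 1 := by simp [PT]
    rw [h2, h3]
    simpa using h1
  | succ k ih =>
    obtain ⟨q, E, hE⟩ := ih
    obtain ⟨E₁, hE₁⟩ := t_enl 3 q
    obtain ⟨E₂, hE₂⟩ := t_enl q 3
    obtain ⟨E₃, hE₃⟩ := t_prod (q + 3)
    set E' := max E₀ E with hE'
    set E'' := (E' + 1) * (max E₁ E₂) with hE''
    refine ⟨q + 3, (E'' + 1) * E₃, fun H g hg => ?_⟩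
    have hg1 := one_le_base H
    have hgH : ((g 0 : ℕ) : ℝ) + 2 ≤ (H : ℝ) + 2 := by
      have : ((g 0 : ℕ) : ℝ) ≤ H := by exact_mod_cast hg 0
      linarith
    have h1 : GSys 3 (((H : ℝ) + 2) ^ E') (TT (g 0)) (fun e : Ex Δ => mon (g 0) e) := by
      refine (hE₀ (g 0)).mono le_rfl ?_
      exact (pow_le_pow_left₀ (by positivity) hgH _).trans (base_mono hg1 (le_max_left _ _))
    have h2 : GSys q (((H : ℝ) + 2) ^ E') (PT fun l : Fin k => g l.succ) (pmon (Δ := Δ) fun l : Fin k => g l.succ) :=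
      (hE H _ fun l => hg l.succ).mono le_rfl (base_mono hg1 (le_max_right _ _))
    have h3 := hE₁ _ _ _ (PT fun l : Fin k => g l.succ) _ h1 h2.degT h2.sizeT
    have h4 := hE₂ _ _ _ (TT (g 0)) _ h2 h1.degT h1.sizeT
    have hE1 : (2 * ((H : ℝ) + 2) ^ E') ^ E₁ ≤ ((H : ℝ) + 2) ^ E'' := by
      refine (pow_base H _ _).trans (base_mono hg1 ?_)
      exact Nat.mul_le_mul_left _ (le_max_left _ _)
    have hE2 : (2 * ((H : ℝ) + 2) ^ E') ^ E₂ ≤ ((H : ℝ) + 2) ^ E'' := by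
      refine (pow_base H _ _).trans (base_mono hg1 ?_)
      exact Nat.mul_le_mul_left _ (le_max_right _ _)
    have hPT : PT g = TT (g 0) * PT (fun l : Fin k => g l.succ) := by
      simp [PT, Fin.prod_univ_succ]
    have h5 : GSys (q + 3) (((H : ℝ) + 2) ^ E'') (PT g) (fun e : Ex Δ => mon (g 0) e) := by
      rw [hPT]
      exact h3.mono (by omega) hE1
    have h6 : GSys (q + 3) (((H : ℝ) + 2) ^ E'') (PT g) (pmon (Δ := Δ) fun l : Fin k => g l.succ) := by
      rw [hPT, mul_comm]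
      exact h4.mono le_rfl hE2
    have h7 := (hE₃ _ _ _ _ _ _ h5 h6).mono le_rfl (pow_base H _ _)
    have h8 := h7.reindex (Fin.consEquiv fun _ => Ex Δ).symm
    have h9 : (pmon (Δ := Δ) g) = fun j =>
        mon (g 0) ((Fin.consEquiv fun _ => Ex Δ).symm j).1 *
          pmon (Δ := Δ) (fun l : Fin k => g l.succ) ((Fin.consEquiv fun _ => Ex Δ).symm j).2 := by
      funext b
      unfold pmon
      rw [Fin.prod_univ_succ]
      rfl
    rw [h9]
    exact h8

end Pool.Agent.Y113
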