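import Pool.Agent.Y113.P.Fin

/-!
# Project GF: sizes and denominators of the coefficients
-/

set_option autoImplicit false

open PowerSeries Finset.HasAntidiagonal

namespace Pool.Agent.Y113

/-- sizes and denominators -/
def SDp (A : ℝ) (f : ℚ⟦X⟧) : Prop :=
  (∀ m, |((coeff m f : ℚ) : ℝ)| ≤ A ^ (m + 1)) ∧
  ∀ m, ∃ d : ℕ, 0 < d ∧ (d : ℝ) ≤ A ^ (m + 1) ∧ ∀ j ≤ m, ∃ a : ℤ, (d : ℚ) * coeff j f = a

lemma SDp.one_le {A : ℝ} {f : ℚ⟦X⟧} (h : SDp A f) : 1 ≤ A := by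
  obtain ⟨d, hd0, hd, _⟩ := h.2 0
  have : (1 : ℝ) ≤ d := by exact_mod_cast hd0
  simpa using this.trans hd

lemma SDp.mono {A B : ℝ} {f : ℚ⟦X⟧} (h : SDp A f) (hAB : A ≤ B) : SDp B f := by
  have h0 : 0 ≤ A := zero_le_one.trans h.one_le
  refine ⟨fun m => (h.1 m).trans (pow_le_pow_left₀ h0 hAB _), fun m => ?_⟩
  obtain ⟨d, hd0, hd, hd'⟩ := h.2 m
  exact ⟨d, hd0, hd.trans (pow_le_pow_left₀ h0 hAB _), hd'⟩

lemma SDp.add {A B : ℝ} {f g : ℚ⟦X⟧} (h : SDp A f) (h' : SDp B g) : SDp (2 * A * B) (f + g) := by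
  have hA := h.one_le
  have hB := h'.one_le
  have hA0 : 0 < A := by linarith
  have hB0 : 0 < B := by linarith
  refine ⟨fun m => ?_, fun m => ?_⟩
  · rw [map_add]
    push_cast
    refine (abs_add_le _ _).trans ((add_le_add (h.1 m) (h'.1 m)).trans ?_)
    have e1 : A ^ (m + 1) ≤ (A * B) ^ (m + 1) := pow_le_pow_left₀ hA0.le (by nlinarith) _
    have e2 : B ^ (m + 1) ≤ (A * B) ^ (m + 1) := pow_le_pow_left₀ hB0.le (by nlinarith) _
    calc A ^ (m + 1) + B ^ (m + 1) ≤ 2 * (A * B) ^ (m + 1) := by linarith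
      _ ≤ 2 ^ (m + 1) * (A * B) ^ (m + 1) := by
          refine mul_le_mul_of_nonneg_right ?_ (by positivity)
          exact le_self_pow₀ (by norm_num) (by omega)
      _ = _ := by rw [← mul_pow, mul_assoc]
  · obtain ⟨d, hd0, hd, hd'⟩ := h.2 m
    obtain ⟨e, he0, he, he'⟩ := h'.2 m
    refine ⟨d * e, Nat.mul_pos hd0 he0, ?_, fun j hj => ?_⟩
    · push_cast
      calc (d : ℝ) * e ≤ A ^ (m + 1) * B ^ (m + 1) := mul_le_mul hd he (by positivity) (by positivity)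
        _ = (A * B) ^ (m + 1) := by rw [mul_pow]
        _ ≤ _ := pow_le_pow_left₀ (by positivity) (by nlinarith) _
    · obtain ⟨a, ha⟩ := hd' j hj
      obtain ⟨b, hb⟩ := he' j hj
      refine ⟨e * a + d * b, ?_⟩
      rw [map_add]
      push_cast
      rw [← ha, ← hb]
      ring

lemma SDp.mul {A B : ℝ} {f g : ℚ⟦X⟧} (h : SDp A f) (h' : SDp B g) : SDp (2 * A * B) (f * g) := by
  have hA := h.one_le
  have hB := h'.one_le
  have hA0 : 0 < A := by linarith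
  have hB0 : 0 < B := by linarith
  refine ⟨fun m => ?_, fun m => ?_⟩
  · rw [coeff_mul]
    push_cast
    refine (Finset.abs_sum_le_sum_abs _ _).trans ?_
    refine (Finset.sum_le_card_nsmul _ _ (A ^ (m + 1) * B ^ (m + 1)) fun p hp => ?_).trans ?_
    · rw [Finset.HasAntidiagonal.mem_antidiagonal] at hp
      rw [abs_mul]
      refine mul_le_mul ((h.1 _).trans (pow_le_pow_right₀ hA (by omega)))
        ((h'.1 _).trans (pow_le_pow_right₀ hB (by omega))) (abs_nonneg _) (by positivity)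
    · rw [nsmul_eq_mul, Finset.Nat.card_antidiagonal]
      push_cast
      calc ((m : ℝ) + 1) * (A ^ (m + 1) * B ^ (m + 1)) ≤ 2 ^ (m + 1) * (A ^ (m + 1) * B ^ (m + 1)) := by
            refine mul_le_mul_of_nonneg_right ?_ (by positivity)
            exact (succ_le_two_pow m).trans (pow_le_pow_right₀ (by norm_num) (by omega))
        _ = _ := by rw [← mul_pow, ← mul_pow, mul_assoc]
  · obtain ⟨d, hd0, hd, hd'⟩ := h.2 m
    obtain ⟨e, he0, he, he'⟩ := h'.2 m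
    refine ⟨d * e, Nat.mul_pos hd0 he0, ?_, fun j hj => ?_⟩
    · push_cast
      calc (d : ℝ) * e ≤ A ^ (m + 1) * B ^ (m + 1) := mul_le_mul hd he (by positivity) (by positivity)
        _ = (A * B) ^ (m + 1) := by rw [mul_pow]
        _ ≤ _ := pow_le_pow_left₀ (by positivity) (by nlinarith) _
    · choose! a ha using hd'
      choose! b hb using he'
      refine ⟨∑ p ∈ antidiagonal j, a p.1 * b p.2, ?_⟩
      rw [coeff_mul, Finset.mul_sum]
      push_cast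
      refine Finset.sum_congr rfl fun p hp => ?_
      rw [Finset.HasAntidiagonal.mem_antidiagonal] at hp
      rw [← ha p.1 (by omega), ← hb p.2 (by omega)]
      ring

lemma SDp.deriv {A : ℝ} {f : ℚ⟦X⟧} (h : SDp A f) : SDp (2 * A ^ 2) (d⁄dX ℚ f) := by
  have hA := h.one_le
  have hA0 : 0 < A := by linarith
  have e1 : ∀ m : ℕ, A ^ (m + 1 + 1) ≤ (A ^ 2) ^ (m + 1) := fun m => by
    rw [← pow_mul]
    exact pow_le_pow_right₀ hA (by omega)
  refine ⟨fun m => ?_, fun m => ?_⟩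
  · rw [coeff_derivative]
    push_cast
    rw [abs_mul, mul_pow, mul_comm]
    refine mul_le_mul ?_ ((h.1 (m + 1)).trans (e1 m)) (abs_nonneg _) (by positivity)
    rw [abs_of_nonneg (by positivity)]
    exact (succ_le_two_pow m).trans (pow_le_pow_right₀ (by norm_num) (by omega))
  · obtain ⟨d, hd0, hd, hd'⟩ := h.2 (m + 1)
    refine ⟨d, hd0, hd.trans ((e1 m).trans (pow_le_pow_left₀ (by positivity) (by nlinarith) _)), fun j hj => ?_⟩
    obtain ⟨a, ha⟩ := hd' (j + 1) (by omega)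
    refine ⟨a * (j + 1), ?_⟩
    rw [coeff_derivative]
    push_cast
    rw [← ha]
    ring

lemma SDp.half : SDp 2 (PowerSeries.C (1 / 2 : ℚ)) := by
  refine ⟨fun m => ?_, fun m => ⟨2, two_pos, ?_, fun j _ => ?_⟩⟩
  · rw [coeff_C]
    split_ifs
    · have : (1 : ℝ) ≤ 2 ^ (m + 1) := one_le_pow₀ (by norm_num)
      rw [abs_of_nonneg (by norm_num)]
      push_cast
      linarith
    · simp
  · push_cast
    exact le_self_pow₀ (by norm_num) (by omega)
  · rw [coeff_C]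
    split_ifs
    · exact ⟨1, by norm_num⟩
    · exact ⟨0, by simp⟩

lemma SDp.int (n : ℕ) (c : ℤ) (hc : |(c : ℝ)| ≤ 2 ^ n) : SDp (2 ^ n) (PowerSeries.C (c : ℚ)) := by
  have h1 : ∀ m : ℕ, (1 : ℝ) ≤ (2 ^ n) ^ (m + 1) := fun m => one_le_pow₀ (one_le_pow₀ (by norm_num))
  refine ⟨fun m => ?_, fun m => ⟨1, one_pos, ?_, fun j _ => ?_⟩⟩
  · rw [coeff_C]
    split_ifs
    · push_cast
      exact hc.trans (le_self_pow₀ (one_le_pow₀ (by norm_num)) (by omega))
    · simp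
  · simpa using h1 m
  · rw [coeff_C]
    split_ifs
    · exact ⟨c, by simp⟩
    · exact ⟨0, by simp⟩

lemma SDp.X : SDp 1 (X : ℚ⟦X⟧) := by
  refine ⟨fun m => ?_, fun m => ⟨1, one_pos, by simp, fun j _ => ?_⟩⟩
  · rw [coeff_X]
    split_ifs <;> simp
  · rw [coeff_X]
    split_ifs
    · exact ⟨1, by simp⟩
    · exact ⟨0, by simp⟩

lemma SDp.one : SDp 1 (1 : ℚ⟦X⟧) := by
  refine ⟨fun m => ?_, fun m => ⟨1, one_pos, by simp, fun j _ => ?_⟩⟩
  · rw [coeff_one]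
    split_ifs <;> simp
  · rw [coeff_one]
    split_ifs
    · exact ⟨1, by simp⟩
    · exact ⟨0, by simp⟩

/-- the substitution `sh g` over `ℤ` -/
noncomputable def shZ (g : ℕ) : ℤ⟦X⟧ := PowerSeries.mk fun m => if m = 0 then 0 else (g : ℤ) ^ (m - 1)

lemma sh_eq (g : ℕ) : sh g = PowerSeries.map (Int.castRingHom ℚ) (shZ g) := by
  ext m
  rw [coeff_map]
  simp only [sh, shZ, coeff_mk]
  split_ifs <;> simp

lemma const_sh (g : ℕ) : PowerSeries.constantCoeff (sh g) = 0 := by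
  rw [← coeff_zero_eq_constantCoeff_apply]
  simp [sh]

lemma hasSubst_sh (g : ℕ) : PowerSeries.HasSubst (sh g) := PowerSeries.HasSubst.of_constantCoeff_zero' (const_sh g)

lemma coeff_sh_pow_bound (g d m : ℕ) : |((coeff m ((sh g) ^ d) : ℚ) : ℝ)| ≤ 2 ^ (m + d) * ((g : ℝ) + 1) ^ m := by
  induction d generalizing m with
  | zero =>
    rw [pow_zero, coeff_one]
    split_ifs
    · simp only [Rat.cast_one, abs_one]
      have h1 : (1 : ℝ) ≤ 2 ^ (m + 0) := one_le_pow₀ (by norm_num)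
      have h2 : (1 : ℝ) ≤ ((g : ℝ) + 1) ^ m := one_le_pow₀ (by linarith [show (0 : ℝ) ≤ g by positivity])
      nlinarith
    · simp; positivity
  | succ d ih =>
    rw [pow_succ, coeff_mul]
    push_cast
    refine (Finset.abs_sum_le_sum_abs _ _).trans ?_
    have h1 : ∀ p ∈ antidiagonal m, |((coeff p.1 ((sh g) ^ d) : ℚ) : ℝ) * ((coeff p.2 (sh g) : ℚ) : ℝ)| ≤
        2 ^ p.1 * (2 ^ d * ((g : ℝ) + 1) ^ m) := by
      intro p hp
      rw [Finset.HasAntidiagonal.mem_antidiagonal] at hp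
      rw [abs_mul]
      have h2 : |((coeff p.2 (sh g) : ℚ) : ℝ)| ≤ ((g : ℝ) + 1) ^ p.2 := by
        simp only [sh, coeff_mk]
        split_ifs
        · simp; positivity
        · push_cast
          rw [abs_of_nonneg (by positivity)]
          calc (g : ℝ) ^ (p.2 - 1) ≤ ((g : ℝ) + 1) ^ (p.2 - 1) := pow_le_pow_left₀ (by positivity) (by linarith) _
            _ ≤ _ := pow_le_pow_right₀ (by linarith [show (0 : ℝ) ≤ g by positivity]) (by omega)
      refine (mul_le_mul (ih p.1) h2 (abs_nonneg _) (by positivity)).trans (le_of_eq ?_)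
      rw [← hp, pow_add, pow_add ((g : ℝ) + 1)]
      ring
    refine (Finset.sum_le_sum h1).trans ?_
    rw [← Finset.sum_mul]
    have h3 : ∑ p ∈ antidiagonal m, (2 : ℝ) ^ p.1 ≤ 2 ^ (m + 1) := by
      rw [Finset.Nat.sum_antidiagonal_eq_sum_range_succ_mk]
      simp only
      have := geom_sum_eq (x := (2 : ℝ)) (by norm_num) (m + 1)
      rw [this]
      norm_num
    calc (∑ p ∈ antidiagonal m, (2 : ℝ) ^ p.1) * (2 ^ d * ((g : ℝ) + 1) ^ m) ≤
        2 ^ (m + 1) * (2 ^ d * ((g : ℝ) + 1) ^ m) := mul_le_mul_of_nonneg_right h3 (by positivity)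
      _ = _ := by
        rw [show m + (d + 1) = (m + 1) + d by ring, pow_add _ (m + 1) d]
        ring

lemma coeff_sh_pow_zero (g d m : ℕ) (h : m < d) : coeff m ((sh g) ^ d) = 0 := by
  apply coeff_of_lt_order
  refine lt_of_lt_of_le ?_ (le_order_pow_of_constantCoeff_eq_zero d (const_sh g))
  exact_mod_cast h

lemma coeff_subst_sh (g m : ℕ) (f : ℚ⟦X⟧) :
    coeff m (f.subst (sh g)) = ∑ d ∈ Finset.range (m + 1), coeff d f * coeff m ((sh g) ^ d) := by
  rw [coeff_subst' (hasSubst_sh g)]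
  rw [finsum_eq_sum_of_support_subset (s := Finset.range (m + 1))]
  · rfl
  · intro d hd
    rw [Function.mem_support] at hd
    rw [Finset.coe_range, Set.mem_Iio]
    by_contra h
    apply hd
    rw [coeff_sh_pow_zero g d m (by omega), smul_zero]

lemma SDp.subst_sh {A : ℝ} {f : ℚ⟦X⟧} (h : SDp A f) (g : ℕ) : SDp (2 ^ 3 * A * ((g : ℝ) + 1)) (f.subst (sh g)) := by
  have hA := h.one_le
  have hA0 : 0 < A := by linarith
  have hg : (1 : ℝ) ≤ (g : ℝ) + 1 := by linarith [show (0 : ℝ) ≤ g by positivity]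
  refine ⟨fun m => ?_, fun m => ?_⟩
  · rw [coeff_subst_sh]
    push_cast
    refine (Finset.abs_sum_le_sum_abs _ _).trans ?_
    refine (Finset.sum_le_card_nsmul _ _ (A ^ (m + 1) * (2 ^ (m + m) * ((g : ℝ) + 1) ^ (m + 1))) fun d hd => ?_).trans ?_
    · rw [Finset.mem_range] at hd
      rw [abs_mul]
      refine mul_le_mul ((h.1 d).trans (pow_le_pow_right₀ hA (by omega))) ((coeff_sh_pow_bound g d m).trans ?_)
        (abs_nonneg _) (by positivity)
      refine mul_le_mul (pow_le_pow_right₀ (by norm_num) (by omega)) (pow_le_pow_right₀ hg (by omega)) (by positivity)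
        (by positivity)
    · rw [nsmul_eq_mul, Finset.card_range]
      push_cast
      calc ((m : ℝ) + 1) * (A ^ (m + 1) * (2 ^ (m + m) * ((g : ℝ) + 1) ^ (m + 1)))
          ≤ 2 ^ (m + 1) * (A ^ (m + 1) * ((2 ^ 2) ^ (m + 1) * ((g : ℝ) + 1) ^ (m + 1))) := by
            refine mul_le_mul ?_ ?_ (by positivity) (by positivity)
            · exact (succ_le_two_pow m).trans (pow_le_pow_right₀ (by norm_num) (by omega))
            · refine mul_le_mul_of_nonneg_left ?_ (by positivity)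
              refine mul_le_mul_of_nonneg_right ?_ (by positivity)
              rw [← pow_mul]
              exact pow_le_pow_right₀ (by norm_num) (by omega)
        _ = _ := by
            rw [← mul_pow, ← mul_pow, ← mul_pow]
            congr 1
            ring
  · obtain ⟨d, hd0, hd, hd'⟩ := h.2 m
    refine ⟨d, hd0, hd.trans (pow_le_pow_left₀ hA0.le (by nlinarith) _), fun j hj => ?_⟩
    choose! a ha using hd'
    refine ⟨∑ e ∈ Finset.range (j + 1), a e * coeff j ((shZ g) ^ e), ?_⟩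
    rw [coeff_subst_sh, Finset.mul_sum]
    push_cast
    refine Finset.sum_congr rfl fun e he => ?_
    rw [Finset.mem_range] at he
    rw [← ha e (by omega), sh_eq, ← map_pow, coeff_map]
    simp only [eq_intCast]
    ring

lemma lcm_bound (n : ℕ) : (Nat.lcmUpto n : ℝ) ≤ (2 ^ 8) ^ n := by
  have h1 := Chebyshev.psi_eq_log_lcmUpto n
  have h2 := Chebyshev.psi_le_const_mul_self (x := (n : ℝ)) (by positivity)
  rw [h1] at h2
  have h3 : (0 : ℝ) < Nat.lcmUpto n := by exact_mod_cast Nat.lcmUpto_pos n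
  rw [← Real.exp_log h3]
  have h4 : Real.log 4 + 4 ≤ 8 * Real.log 2 := by
    have e1 : Real.log 4 = 2 * Real.log 2 := by
      rw [show (4 : ℝ) = 2 ^ 2 by norm_num, Real.log_pow]
      norm_num
    have e2 := Real.log_two_gt_d9
    rw [e1]
    linarith
  have h5 : Real.log (Nat.lcmUpto n) ≤ n * (8 * Real.log 2) := by
    refine h2.trans ?_
    rw [mul_comm]
    exact mul_le_mul_of_nonneg_left h4 (by positivity)
  calc Real.exp (Real.log (Nat.lcmUpto n)) ≤ Real.exp (n * (8 * Real.log 2)) := Real.exp_le_exp.2 h5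
    _ = _ := by
      rw [Real.exp_nat_mul, show (8 : ℝ) * Real.log 2 = ((8 : ℕ) : ℝ) * Real.log 2 by norm_num, Real.exp_nat_mul,
        Real.exp_log (by norm_num)]

lemma dvd_lcmUpto {j n : ℕ} (h1 : 1 ≤ j) (h2 : j ≤ n) : j ∣ Nat.lcmUpto n :=
  Finset.dvd_lcm (f := id) (Finset.mem_Icc.2 ⟨h1, h2⟩)

lemma lcm_div {j n : ℕ} (h1 : 1 ≤ j) (h2 : j ≤ n) : ∃ a : ℤ, (Nat.lcmUpto n : ℚ) * (1 / (j : ℚ)) = a := by
  obtain ⟨c, hc⟩ := dvd_lcmUpto h1 h2
  refine ⟨c, ?_⟩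
  have : (j : ℚ) ≠ 0 := by positivity
  rw [hc]
  push_cast
  field_simp

lemma SDp.lg (g : ℕ) : SDp (2 ^ 8 * ((g : ℝ) + 1)) (lg g) := by
  have hg : (1 : ℝ) ≤ (g : ℝ) + 1 := by linarith [show (0 : ℝ) ≤ g by positivity]
  refine ⟨fun m => ?_, fun m => ⟨Nat.lcmUpto m, Nat.lcmUpto_pos m, ?_, fun j hj => ?_⟩⟩
  · simp only [Y113.lg, coeff_mk]
    push_cast
    rw [abs_neg, abs_of_nonneg (by positivity)]
    rcases Nat.eq_zero_or_pos m with rfl | hm
    · simp; positivity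
    · have h1 : (1 : ℝ) ≤ m := by exact_mod_cast hm
      calc (g : ℝ) ^ m / m ≤ (g : ℝ) ^ m := div_le_self (by positivity) h1
        _ ≤ ((g : ℝ) + 1) ^ m := pow_le_pow_left₀ (by positivity) (by linarith) _
        _ ≤ ((g : ℝ) + 1) ^ (m + 1) := pow_le_pow_right₀ hg (by omega)
        _ ≤ _ := pow_le_pow_left₀ (by positivity) (by nlinarith) _
  · refine (lcm_bound m).trans ?_
    calc ((2 : ℝ) ^ 8) ^ m ≤ (2 ^ 8) ^ (m + 1) := pow_le_pow_right₀ (by norm_num) (by omega)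
      _ ≤ _ := pow_le_pow_left₀ (by positivity) (by nlinarith) _
  · simp only [Y113.lg, coeff_mk]
    rcases Nat.eq_zero_or_pos j with rfl | hj0
    · exact ⟨0, by simp⟩
    · obtain ⟨a, ha⟩ := lcm_div hj0 hj
      refine ⟨- a * g ^ j, ?_⟩
      push_cast
      rw [← ha]
      ring

lemma centralBinom_le (n : ℕ) : (n.centralBinom : ℚ) / 4 ^ n ≤ 1 := by
  rw [div_le_one (by positivity)]
  have : n.centralBinom ≤ 4 ^ n := Nat.centralBinom_le_four_pow n
  exact_mod_cast this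

lemma harm_int (j n : ℕ) (h : j ≤ n) : ∃ a : ℤ, (Nat.lcmUpto n : ℚ) * harmonic j = a := by
  have h1 : ∀ i ∈ Finset.range j, ∃ a : ℤ, (Nat.lcmUpto n : ℚ) * ((i + 1 : ℕ) : ℚ)⁻¹ = a := by
    intro i hi
    rw [Finset.mem_range] at hi
    obtain ⟨a, ha⟩ := lcm_div (j := i + 1) (n := n) (by omega) (by omega)
    exact ⟨a, by rw [← ha, one_div]⟩
  choose! a ha using h1
  refine ⟨∑ i ∈ Finset.range j, a i, ?_⟩
  rw [harmonic, Finset.mul_sum]
  push_cast
  refine Finset.sum_congr rfl fun i hi => ?_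
  rw [← ha i hi]
  push_cast
  rfl

lemma harm_diff (n : ℕ) : 0 ≤ harmonic (2 * n) - harmonic n ∧ harmonic (2 * n) - harmonic n ≤ 1 := by
  have h1 : harmonic (2 * n) - harmonic n = ∑ i ∈ Finset.Ico n (2 * n), ((i : ℚ) + 1)⁻¹ := by
    rw [harmonic, harmonic, Finset.sum_Ico_eq_sub _ (by omega)]
    push_cast
    rfl
  rw [h1]
  refine ⟨Finset.sum_nonneg fun i _ => by positivity, ?_⟩
  rcases Nat.eq_zero_or_pos n with rfl | hn
  · simp
  · refine (Finset.sum_le_card_nsmul _ _ ((n : ℚ))⁻¹ fun i hi => ?_).trans ?_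
    · rw [Finset.mem_Ico] at hi
      have h2 : (n : ℚ) ≤ (i : ℚ) + 1 := by
        have : (n : ℚ) ≤ i := by exact_mod_cast hi.1
        linarith
      exact inv_anti₀ (by exact_mod_cast hn) h2
    · rw [Nat.card_Ico, nsmul_eq_mul]
      have e1 : 2 * n - n = n := by omega
      rw [e1, mul_inv_cancel₀ (by positivity)]

lemma cb_int (j m : ℕ) (h : j ≤ m) : ∃ a : ℤ, (16 ^ m : ℚ) * ((j.centralBinom : ℚ) / 4 ^ j) ^ 2 = a := by
  refine ⟨(j.centralBinom : ℤ) ^ 2 * 16 ^ (m - j), ?_⟩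
  obtain ⟨r, rfl⟩ : ∃ r, m = j + r := ⟨m - j, by omega⟩
  have e1 : j + r - j = r := by omega
  rw [e1]
  push_cast
  rw [div_pow, pow_add, ← pow_mul, mul_comm j 2, pow_mul]
  norm_num
  field_simp

lemma SDp.Fs : SDp (2 ^ 4) Fs := by
  refine ⟨fun m => ?_, fun m => ⟨16 ^ m, by positivity, ?_, fun j hj => ?_⟩⟩
  · simp only [Y113.Fs, coeff_mk]
    have h1 := centralBinom_le m
    have h2 : (0 : ℚ) ≤ (m.centralBinom : ℚ) / 4 ^ m := by positivity
    have h3 : (((m.centralBinom : ℚ) / 4 ^ m) ^ 2 : ℚ) ≤ 1 := pow_le_one₀ h2 h1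
    rw [abs_of_nonneg (by positivity)]
    have h4 : (((((m.centralBinom : ℚ) / 4 ^ m) ^ 2 : ℚ)) : ℝ) ≤ 1 := by exact_mod_cast h3
    exact h4.trans (one_le_pow₀ (by norm_num))
  · push_cast
    rw [show (16 : ℝ) = 2 ^ 4 by norm_num]
    exact pow_le_pow_right₀ (by norm_num) (by omega)
  · simp only [Y113.Fs, coeff_mk]
    obtain ⟨a, ha⟩ := cb_int j m hj
    exact ⟨a, by rw [← ha]; push_cast; rfl⟩

lemma SDp.Hs : SDp (2 ^ 20) Hs := by
  refine ⟨fun m => ?_, fun m => ⟨16 ^ m * Nat.lcmUpto (2 * m), ?_, ?_, fun j hj => ?_⟩⟩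
  · simp only [Y113.Hs, coeff_mk]
    have h1 := centralBinom_le m
    have h2 : (0 : ℚ) ≤ (m.centralBinom : ℚ) / 4 ^ m := by positivity
    have h3 : (((m.centralBinom : ℚ) / 4 ^ m) ^ 2 : ℚ) ≤ 1 := pow_le_one₀ h2 h1
    have h4 := harm_diff m
    have h5 : ((m.centralBinom : ℚ) / 4 ^ m) ^ 2 * (2 * (harmonic (2 * m) - harmonic m)) ≤ 2 := by
      calc ((m.centralBinom : ℚ) / 4 ^ m) ^ 2 * (2 * (harmonic (2 * m) - harmonic m)) ≤ 1 * (2 * 1) := by
            refine mul_le_mul h3 (by linarith [h4.2]) (by linarith [h4.1]) (by norm_num)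
        _ = 2 := by norm_num
    have h6 : 0 ≤ ((m.centralBinom : ℚ) / 4 ^ m) ^ 2 * (2 * (harmonic (2 * m) - harmonic m)) :=
      mul_nonneg (by positivity) (by linarith [h4.1])
    rw [abs_of_nonneg (by exact_mod_cast h6)]
    have h7 : ((((m.centralBinom : ℚ) / 4 ^ m) ^ 2 * (2 * (harmonic (2 * m) - harmonic m)) : ℚ) : ℝ) ≤ 2 := by
      exact_mod_cast h5
    refine h7.trans ?_
    calc (2 : ℝ) ≤ 2 ^ 20 := by norm_num
      _ ≤ _ := le_self_pow₀ (by norm_num) (by omega)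
  · exact Nat.mul_pos (by positivity) (Nat.lcmUpto_pos _)
  · push_cast
    calc (16 : ℝ) ^ m * (Nat.lcmUpto (2 * m) : ℝ) ≤ (2 ^ 4) ^ m * (2 ^ 8) ^ (2 * m) := by
          refine mul_le_mul (by norm_num) (lcm_bound _) (by positivity) (by positivity)
      _ = (2 ^ 20) ^ m := by
          rw [← pow_mul, ← pow_mul, ← pow_mul, ← pow_add]
          congr 1
          ring
      _ ≤ _ := pow_le_pow_right₀ (by norm_num) (by omega)
  · simp only [Y113.Hs, coeff_mk]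
    obtain ⟨a, ha⟩ := cb_int j m hj
    obtain ⟨b, hb⟩ := harm_int (2 * j) (2 * m) (by omega)
    obtain ⟨c, hc⟩ := harm_int j (2 * m) (by omega)
    refine ⟨a * (2 * (b - c)), ?_⟩
    push_cast
    rw [← ha, ← hb, ← hc]
    ring

/-- families with polynomial constants -/
def SDE (f : ℕ → ℚ⟦X⟧) : Prop := ∃ E : ℕ, ∀ g : ℕ, SDp (((g : ℝ) + 2) ^ E) (f g)

lemma two_pow_le (g n : ℕ) : (2 : ℝ) ^ n ≤ ((g : ℝ) + 2) ^ n :=
  pow_le_pow_left₀ (by norm_num) (by linarith [show (0 : ℝ) ≤ g by positivity]) _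

lemma SDE.of_const {n : ℕ} {f : ℚ⟦X⟧} (h : SDp (2 ^ n) f) : SDE (fun _ => f) :=
  ⟨n, fun g => h.mono (two_pow_le g n)⟩

lemma SDE.add {f f' : ℕ → ℚ⟦X⟧} (h : SDE f) (h' : SDE f') : SDE (fun g => f g + f' g) := by
  obtain ⟨E, hE⟩ := h
  obtain ⟨E', hE'⟩ := h'
  refine ⟨1 + E + E', fun g => ((hE g).add (hE' g)).mono ?_⟩
  rw [pow_add, pow_add]
  refine mul_le_mul_of_nonneg_right (mul_le_mul_of_nonneg_right ?_ (by positivity)) (by positivity)
  simpa using two_pow_le g 1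

lemma SDE.mul {f f' : ℕ → ℚ⟦X⟧} (h : SDE f) (h' : SDE f') : SDE (fun g => f g * f' g) := by
  obtain ⟨E, hE⟩ := h
  obtain ⟨E', hE'⟩ := h'
  refine ⟨1 + E + E', fun g => ((hE g).mul (hE' g)).mono ?_⟩
  rw [pow_add, pow_add]
  refine mul_le_mul_of_nonneg_right (mul_le_mul_of_nonneg_right ?_ (by positivity)) (by positivity)
  simpa using two_pow_le g 1

lemma SDE.neg {f : ℕ → ℚ⟦X⟧} (h : SDE f) : SDE (fun g => - f g) := by
  have h1 : SDE (fun _ => PowerSeries.C ((-1 : ℤ) : ℚ)) := SDE.of_const (SDp.int 0 (-1) (by norm_num))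
  have h2 := h1.mul h
  have h3 : (fun g => PowerSeries.C ((-1 : ℤ) : ℚ) * f g) = fun g => - f g := by
    funext g
    simp
  rwa [h3] at h2

lemma SDE.sub {f f' : ℕ → ℚ⟦X⟧} (h : SDE f) (h' : SDE f') : SDE (fun g => f g - f' g) := by
  simpa [sub_eq_add_neg] using h.add h'.neg

lemma SDE.subst {f : ℚ⟦X⟧} (h : ∃ n : ℕ, SDp (2 ^ n) f) : SDE (fun g => f.subst (sh g)) := by
  obtain ⟨n, hn⟩ := h
  refine ⟨3 + n + 1, fun g => (hn.subst_sh g).mono ?_⟩
  rw [pow_add, pow_add, pow_one]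
  refine mul_le_mul (mul_le_mul (two_pow_le g 3) (two_pow_le g n) (by positivity) (by positivity)) (by linarith)
    (by positivity) (by positivity)

/-- constants which are powers of two -/
def SDc (f : ℚ⟦X⟧) : Prop := ∃ n : ℕ, SDp (2 ^ n) f

lemma SDc.add {f g : ℚ⟦X⟧} (h : SDc f) (h' : SDc g) : SDc (f + g) := by
  obtain ⟨n, hn⟩ := h
  obtain ⟨n', hn'⟩ := h'
  exact ⟨1 + n + n', (hn.add hn').mono (by rw [pow_add, pow_add, pow_one])⟩

lemma SDc.mul {f g : ℚ⟦X⟧} (h : SDc f) (h' : SDc g) : SDc (f * g) := by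
  obtain ⟨n, hn⟩ := h
  obtain ⟨n', hn'⟩ := h'
  exact ⟨1 + n + n', (hn.mul hn').mono (by rw [pow_add, pow_add, pow_one])⟩

lemma SDc.deriv {f : ℚ⟦X⟧} (h : SDc f) : SDc (d⁄dX ℚ f) := by
  obtain ⟨n, hn⟩ := h
  exact ⟨1 + n * 2, hn.deriv.mono (by rw [pow_add, pow_mul, pow_one])⟩

lemma SDc.X : SDc (X : ℚ⟦X⟧) := ⟨0, by simpa using SDp.X⟩

lemma SDc.one : SDc (1 : ℚ⟦X⟧) := ⟨0, by simpa using SDp.one⟩

lemma SDc.int (c : ℤ) : SDc ((c : ℤ) : ℚ⟦X⟧) := by
  obtain ⟨n, hn⟩ : ∃ n : ℕ, |(c : ℝ)| ≤ 2 ^ n := by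
    obtain ⟨n, hn⟩ := pow_unbounded_of_one_lt |(c : ℝ)| (show (1 : ℝ) < 2 by norm_num)
    exact ⟨n, hn.le⟩
  refine ⟨n, ?_⟩
  have := SDp.int n c hn
  simpa using this

lemma SDc.Fs : SDc Fs := ⟨4, SDp.Fs⟩
lemma SDc.Hs : SDc Hs := ⟨20, SDp.Hs⟩

lemma SDc.one_sub_X : SDc (1 - PowerSeries.X : ℚ⟦X⟧) := by
  have h := SDc.one.add ((SDc.int (-1)).mul SDc.X)
  have e : (1 : ℚ⟦X⟧) + ((-1 : ℤ) : ℚ⟦X⟧) * PowerSeries.X = 1 - PowerSeries.X := by push_cast; ring
  rwa [e] at h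

lemma SDc.Gs : SDc Gs := by
  have h2 : SDc (2 : ℚ⟦X⟧) := by simpa using SDc.int 2
  exact (((h2.mul SDc.X).mul SDc.one_sub_X).mul SDc.Fs.deriv).add (SDc.one_sub_X.mul SDc.Fs)

lemma SDc.Ks : SDc Ks := by
  have h2 : SDc (2 : ℚ⟦X⟧) := by simpa using SDc.int 2
  exact ((((h2.mul SDc.X).mul SDc.one_sub_X).mul SDc.Hs.deriv).add (SDc.one_sub_X.mul SDc.Hs)).add
    (SDc.one_sub_X.mul SDc.Fs)

lemma SDE.lg : SDE lg := by
  refine ⟨8 + 1, fun g => (SDp.lg g).mono ?_⟩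
  rw [pow_add, pow_one]
  exact mul_le_mul (two_pow_le g 8) (by linarith) (by positivity) (by positivity)

lemma SDE.half : SDE (fun _ => PowerSeries.C (1 / 2 : ℚ)) := SDE.of_const (n := 1) (by simpa using SDp.half)

lemma SDE.uu : SDE uu := SDE.subst SDc.Fs
lemma SDE.vv : SDE vv := SDE.subst SDc.Gs
lemma SDE.ww : SDE ww := (SDE.half.mul (SDE.uu.mul SDE.lg)).sub (SDE.subst SDc.Hs)
lemma SDE.xx : SDE xx := (SDE.half.mul (SDE.vv.mul SDE.lg)).sub (SDE.subst SDc.Ks)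

lemma SDE.base (i : Fin 5) : SDE (fun g => base g i) := by
  fin_cases i
  · show SDE (fun _ => (1 : ℚ⟦X⟧))
    exact SDE.of_const (n := 0) (by simpa using SDp.one)
  · exact SDE.uu
  · exact SDE.vv
  · exact SDE.ww
  · exact SDE.xx

theorem t_sd : T_sd := by
  choose E hE using SDE.base
  have hle : ∀ (i : Fin 5) (g : ℕ), ((g : ℝ) + 2) ^ E i ≤ ((g : ℝ) + 2) ^ (∑ i, E i) := fun i g =>
    base_mono (one_le_base g) (Finset.single_le_sum (f := E) (fun _ _ => Nat.zero_le _) (Finset.mem_univ i))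
  refine ⟨∑ i, E i, fun g => ⟨fun i m => ((hE i g).1 m).trans (pow_le_pow_left₀ (by positivity) (hle i g) _),
    fun m => ?_⟩⟩
  choose d hd0 hd hd' using fun i => (hE i g).2 m
  refine ⟨∏ i, d i, Finset.prod_pos fun i _ => hd0 i, ?_, fun i j hj => ?_⟩
  · push_cast
    rw [← Finset.prod_pow_eq_pow_sum, ← Finset.prod_pow]
    exact Finset.prod_le_prod (fun i _ => by positivity) fun i _ => hd i
  · obtain ⟨a, ha⟩ := hd' i j hj
    refine ⟨(∏ l ∈ Finset.univ.erase i, d l : ℕ) * a, ?_⟩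
    rw [← Finset.prod_erase_mul _ _ (Finset.mem_univ i)]
    push_cast
    rw [← ha]
    ring

end Pool.Agent.Y113
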