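import Pool.Agent.Y113.P.Gal2

/-!
# Project GF: Galochkin's condition for rank two systems with a logarithm, the denominators
-/

set_option autoImplicit false

open PowerSeries Finset.HasAntidiagonal

namespace Pool.Agent.Y113

section Two

variable {T₁ : Polynomial ℤ} {A : Fin 2 → Fin 2 → Polynomial ℤ} {y w : Fin 2 → ℚ⟦X⟧}

lemma Ah_solve (hy : ∀ i, ps (Polynomial.X * T₁) * d⁄dX ℚ (y i) = ∑ j, ps (A i j) * y j)
    (hw : ∀ i, ps (Polynomial.X * T₁) * d⁄dX ℚ (w i) = ∑ j, ps (A i j) * w j + PowerSeries.C (1 / 2 : ℚ) * (ps T₁ * y i))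
    (hdet : y 0 * w 1 - y 1 * w 0 = -1) (s : ℕ) (i : Fin 2) :
    X ^ s * ((Ah T₁ A s i 0 : Polynomial ℚ) : ℚ⟦X⟧) =
      ps (Polynomial.X * T₁) ^ s * (Rr y w s i * y 1 - (X ^ s * hd s (y i)) * w 1) ∧
    X ^ s * ((Ah T₁ A s i 1 : Polynomial ℚ) : ℚ⟦X⟧) =
      ps (Polynomial.X * T₁) ^ s * ((X ^ s * hd s (y i)) * w 0 - Rr y w s i * y 0) := by
  have h1 := hd_y hy s i
  have h2 := Rr_eq hy hw s i
  rw [Fin.sum_univ_two] at h1 h2
  set a := ((Ah T₁ A s i 0 : Polynomial ℚ) : ℚ⟦X⟧)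
  set b := ((Ah T₁ A s i 1 : Polynomial ℚ) : ℚ⟦X⟧)
  constructor
  · linear_combination (X ^ s * a) * hdet + (X ^ s * w 1) * h1 - (y 1) * h2
  · linear_combination (X ^ s * b) * hdet - (X ^ s * w 0) * h1 + (y 0) * h2

lemma bc_int {j k : ℕ} (h : j < k) : ∃ a : ℤ, (Nat.lcmUpto k : ℚ) * bc j = a := by
  obtain ⟨a, ha⟩ := lcm_div (j := j + 1) (n := k) (by omega) (by omega)
  refine ⟨(-1) ^ j * a, ?_⟩
  unfold bc
  push_cast
  rw [← ha]
  push_cast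
  ring

lemma IS.Qc {n d k s : ℕ} {f : ℚ⟦X⟧} (hf : IS n d f) (hs : s ≤ k) : IS n (Nat.lcmUpto k * d) (Qc f s) := by
  unfold Y113.Qc
  refine IS.sum _ fun j hj => ?_
  rw [Finset.mem_range] at hj
  intro l hl
  obtain ⟨a, ha⟩ := bc_int (lt_of_lt_of_le hj hs)
  obtain ⟨b, hb⟩ := hf.hd (s - 1 - j) l hl
  refine ⟨a * b, ?_⟩
  rw [coeff_C_mul]
  push_cast
  rw [← ha, ← hb]
  ring

lemma IS.Rr {n d k s : ℕ} (hy : ∀ i, IS n d (y i)) (hw : ∀ i, IS n d (w i)) (hs : s ≤ k) (i : Fin 2) :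
    IS n (2 * Nat.lcmUpto k * d) (Rr y w s i) := by
  unfold Y113.Rr
  refine IS.sub ?_ ?_
  · exact ((hw i).hd s).mul_left _
  · intro l hl
    obtain ⟨a, ha⟩ := (hy i).Qc hs l hl
    refine ⟨a, ?_⟩
    rw [coeff_C_mul, ← ha]
    push_cast
    ring

lemma IS.ps_pow (n : ℕ) (P : Polynomial ℤ) (s : ℕ) : IS n 1 (Y113.ps P ^ s) := by
  rw [← Y113.ps_pow]
  exact IS.ps n _

lemma IP_Ah (hdet : y 0 * w 1 - y 1 * w 0 = -1)
    (hy : ∀ i, ps (Polynomial.X * T₁) * d⁄dX ℚ (y i) = ∑ j, ps (A i j) * y j)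
    (hw : ∀ i, ps (Polynomial.X * T₁) * d⁄dX ℚ (w i) = ∑ j, ps (A i j) * w j + PowerSeries.C (1 / 2 : ℚ) * (ps T₁ * y i))
    {d k s : ℕ} (hyd : ∀ i, IS (4 * k) d (y i)) (hwd : ∀ i, IS (4 * k) d (w i)) (hs : s ≤ k)
    (hdeg : ∀ i j, (Ah T₁ A s i j).natDegree ≤ 3 * s) (i j : Fin 2) : IP (2 * Nat.lcmUpto k * d * d) (Ah T₁ A s i j) := by
  have key : IS (4 * k) (2 * Nat.lcmUpto k * d * d) (X ^ s * ((Ah T₁ A s i j : Polynomial ℚ) : ℚ⟦X⟧)) := by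
    have hR := IS.Rr hyd hwd hs i
    have hY : IS (4 * k) (2 * Nat.lcmUpto k * d) (X ^ s * hd s (y i)) := by
      have := (hyd i).hd s
      exact this.mul_left (2 * Nat.lcmUpto k)
    have hP := IS.ps_pow (4 * k) (Polynomial.X * T₁) s
    have hs2 := Ah_solve hy hw hdet s i
    fin_cases j
    · show IS (4 * k) (2 * Nat.lcmUpto k * d * d) (X ^ s * ((Ah T₁ A s i 0 : Polynomial ℚ) : ℚ⟦X⟧))
      rw [hs2.1]
      have := hP.mul ((hR.mul (hyd 1)).sub (hY.mul (hwd 1)))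
      rwa [one_mul] at this
    · show IS (4 * k) (2 * Nat.lcmUpto k * d * d) (X ^ s * ((Ah T₁ A s i 1 : Polynomial ℚ) : ℚ⟦X⟧))
      rw [hs2.2]
      have := hP.mul ((hY.mul (hwd 0)).sub (hR.mul (hyd 0)))
      rwa [one_mul] at this
  refine IP.of_coeff fun l => ?_
  by_cases hl : l ≤ 3 * s
  · obtain ⟨a, ha⟩ := key (s + l) (by omega)
    refine ⟨a, ?_⟩
    rw [← ha, coeff_X_pow_mul', if_pos (by omega), Nat.add_sub_cancel_left, Polynomial.coeff_coe]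
  · refine ⟨0, ?_⟩
    rw [Polynomial.coeff_eq_zero_of_natDegree_lt (lt_of_le_of_lt (hdeg i j) (by omega))]
    simp

variable (T₁ A)

/-- the contribution of the logarithm -/
noncomputable def Lh (s : ℕ) (i l : Fin 2) : Polynomial ℚ :=
  ∑ j ∈ Finset.range s, Polynomial.C (1 / 2 * bc j) * ((T₁.map (Int.castRingHom ℚ)) ^ (j + 1) * Ah T₁ A (s - 1 - j) i l)

variable {T₁ A}

lemma hd_w (hy : ∀ i, ps (Polynomial.X * T₁) * d⁄dX ℚ (y i) = ∑ j, ps (A i j) * y j)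
    (hw : ∀ i, ps (Polynomial.X * T₁) * d⁄dX ℚ (w i) = ∑ j, ps (A i j) * w j + PowerSeries.C (1 / 2 : ℚ) * (ps T₁ * y i))
    (s : ℕ) (i : Fin 2) :
    ps (Polynomial.X * T₁) ^ s * hd s (w i) = ∑ j, ((Lh T₁ A s i j : Polynomial ℚ) : ℚ⟦X⟧) * y j +
      ∑ j, ((Ah T₁ A s i j : Polynomial ℚ) : ℚ⟦X⟧) * w j := by
  have hX : (X : ℚ⟦X⟧) ^ s ≠ 0 := pow_ne_zero _ X_ne_zero
  refine mul_left_cancel₀ hX ?_
  have h1 := Rr_eq hy hw s i
  have h2 : X ^ s * (ps (Polynomial.X * T₁) ^ s * hd s (w i)) =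
      ps (Polynomial.X * T₁) ^ s * Rr y w s i + ps (Polynomial.X * T₁) ^ s * (PowerSeries.C (1 / 2 : ℚ) * Qc (y i) s) := by
    unfold Rr
    ring
  rw [h2, h1, mul_add, add_comm]
  congr 1
  unfold Qc Lh
  have h3 : ∀ j, ((∑ l ∈ Finset.range s, Polynomial.C (1 / 2 * bc l) *
      ((T₁.map (Int.castRingHom ℚ)) ^ (l + 1) * Ah T₁ A (s - 1 - l) i j) : Polynomial ℚ) : ℚ⟦X⟧) =
      ∑ l ∈ Finset.range s, PowerSeries.C (1 / 2 * bc l) * (ps T₁ ^ (l + 1) * ((Ah T₁ A (s - 1 - l) i j : Polynomial ℚ) : ℚ⟦X⟧)) := by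
    intro j
    have e0 := map_sum (Polynomial.coeToPowerSeries.ringHom (R := ℚ)) (fun l => Polynomial.C (1 / 2 * bc l) *
      ((T₁.map (Int.castRingHom ℚ)) ^ (l + 1) * Ah T₁ A (s - 1 - l) i j)) (Finset.range s)
    refine e0.trans (Finset.sum_congr rfl fun l _ => ?_)
    show ((Polynomial.C (1 / 2 * bc l) *
      ((T₁.map (Int.castRingHom ℚ)) ^ (l + 1) * Ah T₁ A (s - 1 - l) i j) : Polynomial ℚ) : ℚ⟦X⟧) = _
    rw [Polynomial.coe_mul, Polynomial.coe_mul, Polynomial.coe_pow, Polynomial.coe_C]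
    rfl
  simp only [h3]
  have h4 : ∀ l ∈ Finset.range s, ps (Polynomial.X * T₁) ^ s * (PowerSeries.C (1 / 2 : ℚ) *
      (PowerSeries.C (bc l) * (X ^ (s - 1 - l) * hd (s - 1 - l) (y i)))) =
      ∑ j, X ^ s * (PowerSeries.C (1 / 2 * bc l) * (ps T₁ ^ (l + 1) * ((Ah T₁ A (s - 1 - l) i j : Polynomial ℚ) : ℚ⟦X⟧)) * y j) := by
    intro l hl
    rw [Finset.mem_range] at hl
    have e1 := hd_y hy (s - 1 - l) i
    obtain ⟨m, hm⟩ : ∃ m, s = (l + 1) + m := ⟨s - 1 - l, by omega⟩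
    have e2 : s - 1 - l = m := by omega
    rw [e2] at e1 ⊢
    have e3 : ps (Polynomial.X * T₁) ^ s = X ^ (l + 1) * ps T₁ ^ (l + 1) * ps (Polynomial.X * T₁) ^ m := by
      rw [hm, pow_add, ← mul_pow, ← ps_XT]
    have e4 : (X : ℚ⟦X⟧) ^ s = X ^ (l + 1) * X ^ m := by rw [hm, pow_add]
    have e5 : (PowerSeries.C (1 / 2 * bc l) : ℚ⟦X⟧) = PowerSeries.C (1 / 2 : ℚ) * PowerSeries.C (bc l) := by rw [← map_mul]
    rw [e3, e4, e5]
    have e6 : X ^ (l + 1) * ps T₁ ^ (l + 1) * ps (Polynomial.X * T₁) ^ m *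
        (PowerSeries.C (1 / 2 : ℚ) * (PowerSeries.C (bc l) * (X ^ m * hd m (y i)))) =
        X ^ (l + 1) * ps T₁ ^ (l + 1) * (PowerSeries.C (1 / 2 : ℚ) * (PowerSeries.C (bc l) * X ^ m)) *
          (ps (Polynomial.X * T₁) ^ m * hd m (y i)) := by ring
    rw [e6, e1, Finset.mul_sum]
    exact Finset.sum_congr rfl fun j _ => by ring
  have h5 : ps (Polynomial.X * T₁) ^ s * (PowerSeries.C (1 / 2 : ℚ) *
      ∑ l ∈ Finset.range s, (PowerSeries.C (bc l) * (X ^ (s - 1 - l) * hd (s - 1 - l) (y i)))) =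
      ∑ l ∈ Finset.range s, ps (Polynomial.X * T₁) ^ s * (PowerSeries.C (1 / 2 : ℚ) *
      (PowerSeries.C (bc l) * (X ^ (s - 1 - l) * hd (s - 1 - l) (y i)))) := by
    rw [Finset.mul_sum, Finset.mul_sum]
  have h6 : ∑ j, X ^ s * ((∑ l ∈ Finset.range s, PowerSeries.C (1 / 2 * bc l) *
      (ps T₁ ^ (l + 1) * ((Ah T₁ A (s - 1 - l) i j : Polynomial ℚ) : ℚ⟦X⟧))) * y j) =
      ∑ l ∈ Finset.range s, ∑ j, X ^ s * (PowerSeries.C (1 / 2 * bc l) *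
      (ps T₁ ^ (l + 1) * ((Ah T₁ A (s - 1 - l) i j : Polynomial ℚ) : ℚ⟦X⟧)) * y j) := by
    rw [Finset.sum_comm]
    refine Finset.sum_congr rfl fun j _ => ?_
    rw [Finset.sum_mul, Finset.mul_sum]
  rw [h5, Finset.mul_sum, h6]
  exact Finset.sum_congr rfl h4

lemma Lh_size {B : ℝ} (hB : 1 ≤ B) (hT : Bd 3 B (Polynomial.X * T₁)) (hT₁ : Bd 2 B T₁) (hA : ∀ i j, Bd 2 B (A i j))
    (s : ℕ) (i j : Fin 2) : Bq (3 * s) ((192 * B) ^ s) (Lh T₁ A s i j) := by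
  have hB0 : 0 < B := by linarith
  have h1 : ∀ l ∈ Finset.range s, Bq (3 * s) ((2 ^ 2) ^ s * (24 * B) ^ s)
      (Polynomial.C (1 / 2 * bc l) * ((T₁.map (Int.castRingHom ℚ)) ^ (l + 1) * Ah T₁ A (s - 1 - l) i j)) := by
    intro l hl
    rw [Finset.mem_range] at hl
    have e1 := (hT₁.toBq.pow (l + 1)).mul (Ah_size hB hT hA (s - 1 - l) i j)
    have e2 : |((1 / 2 * bc l : ℚ) : ℝ)| ≤ 1 := by
      unfold bc
      push_cast
      rw [abs_mul, abs_div, abs_div, abs_pow, abs_neg, abs_one, one_pow, abs_two,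
        abs_of_nonneg (by positivity : (0 : ℝ) ≤ (l : ℝ) + 1)]
      have : (1 : ℝ) / ((l : ℝ) + 1) ≤ 1 := by
        rw [div_le_one (by positivity)]
        linarith [show (0 : ℝ) ≤ l by positivity]
      linarith
    refine (e1.C_mul e2).mono (by omega) ?_
    rw [one_mul]
    have e3 : ((2 * (l + 1) : ℕ) : ℝ) + 1 ≤ (2 ^ 2) ^ s := by
      refine (succ_le_two_pow _).trans ?_
      rw [← pow_mul]
      exact pow_le_pow_right₀ (by norm_num) (by omega)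
    refine mul_le_mul e3 ?_ (by positivity) (by positivity)
    push_cast
    calc ((2 + 1) * B) ^ (l + 1) * (24 * B) ^ (s - 1 - l) ≤ (24 * B) ^ (l + 1) * (24 * B) ^ (s - 1 - l) := by
          refine mul_le_mul_of_nonneg_right ?_ (by positivity)
          exact pow_le_pow_left₀ (by positivity) (by linarith) _
      _ = (24 * B) ^ s := by
          rw [← pow_add]
          congr 1
          omega
  refine (Bq.sum _ h1).mono le_rfl ?_
  rw [Finset.card_range]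
  have h2 : (s : ℝ) ≤ 2 ^ s := by linarith [succ_le_two_pow s]
  calc (s : ℝ) * ((2 ^ 2) ^ s * (24 * B) ^ s) ≤ 2 ^ s * ((2 ^ 2) ^ s * (24 * B) ^ s) :=
        mul_le_mul_of_nonneg_right h2 (by positivity)
    _ = _ := by
        rw [← mul_pow, ← mul_pow]
        congr 1
        ring

lemma IP.sum {g : ℕ} {σ : Type*} (s : Finset σ) {f : σ → Polynomial ℚ} (h : ∀ i ∈ s, IP g (f i)) : IP g (∑ i ∈ s, f i) := by
  have h' : ∀ i ∈ s, ∃ Q : Polynomial ℤ, Q.map (Int.castRingHom ℚ) = Polynomial.C (g : ℚ) * f i := h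
  choose! Q hQ using h'
  refine ⟨∑ i ∈ s, Q i, ?_⟩
  rw [Polynomial.map_sum, Finset.mul_sum]
  exact Finset.sum_congr rfl hQ

lemma IP_Lh {g k s : ℕ} (hs : s ≤ k) (i j : Fin 2) (h : ∀ s' ≤ k, IP g (Ah T₁ A s' i j)) :
    IP (2 * Nat.lcmUpto k * g) (Lh T₁ A s i j) := by
  unfold Lh
  refine IP.sum _ fun l hl => ?_
  rw [Finset.mem_range] at hl
  obtain ⟨Q, hQ⟩ := h (s - 1 - l) (by omega)
  obtain ⟨a, ha⟩ := bc_int (lt_of_lt_of_le hl hs)
  refine ⟨Polynomial.C a * (T₁ ^ (l + 1) * Q), ?_⟩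
  rw [Polynomial.map_mul, Polynomial.map_mul, hQ, Polynomial.map_pow, Polynomial.map_C]
  have e1 : (Polynomial.C (((2 * Nat.lcmUpto k * g : ℕ) : ℚ)) : Polynomial ℚ) * Polynomial.C (1 / 2 * bc l) =
      Polynomial.C ((Int.castRingHom ℚ) a) * Polynomial.C (g : ℚ) := by
    rw [← Polynomial.C_mul, ← Polynomial.C_mul]
    congr 1
    rw [eq_intCast, ← ha]
    push_cast
    ring
  linear_combination (-(Polynomial.map (Int.castRingHom ℚ) T₁ ^ (l + 1) * Ah T₁ A (s - 1 - l) i j)) * e1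

lemma IP.lift {g n : ℕ} {R : ℝ} {P : Polynomial ℚ} (h : IP g P) (hP : Bq n R P) :
    ∃ Q : Polynomial ℤ, Q.map (Int.castRingHom ℚ) = Polynomial.C (g : ℚ) * P ∧ Q.natDegree ≤ n ∧
      ∀ l, |((Q.coeff l : ℤ) : ℝ)| ≤ g * R := by
  obtain ⟨Q, hQ⟩ := h
  refine ⟨Q, hQ, ?_, fun l => ?_⟩
  · have h1 : (Q.map (Int.castRingHom ℚ)).natDegree = Q.natDegree :=
      Polynomial.natDegree_map_eq_of_injective (RingHom.injective_int _) _
    rw [← h1, hQ]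
    exact (Polynomial.natDegree_C_mul_le _ _).trans hP.1
  · have h1 := congrArg (fun p => p.coeff l) hQ
    simp only [Polynomial.coeff_map, Polynomial.coeff_C_mul, eq_intCast] at h1
    have h2 : ((Q.coeff l : ℤ) : ℝ) = (g : ℝ) * ((P.coeff l : ℚ) : ℝ) := by exact_mod_cast h1
    rw [h2, abs_mul]
    refine mul_le_mul (by simp) (hP.2 l) (abs_nonneg _) (by positivity)

end Two

end Pool.Agent.Y113
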