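import Pool.Agent.Y113.P.Gal3

/-!
# Project GF: the base family is a G-system
-/

set_option autoImplicit false

open PowerSeries Finset.HasAntidiagonal

namespace Pool.Agent.Y113

section Two

/-- block matrices -/
def MMg {P : Type*} [Zero P] (δ : P) (a l : Fin 2 → Fin 2 → P) : Fin 5 → Fin 5 → P :=
  ![![δ, 0, 0, 0, 0],
    ![0, a 0 0, a 0 1, 0, 0],
    ![0, a 1 0, a 1 1, 0, 0],
    ![0, l 0 0, l 0 1, a 0 0, a 0 1],
    ![0, l 1 0, l 1 1, a 1 0, a 1 1]]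

lemma MMg_cases {P : Type*} [Zero P] (δ : P) (a l : Fin 2 → Fin 2 → P) (i j : Fin 5) : MMg δ a l i j = 0 ∨
    MMg δ a l i j = δ ∨ (∃ c d, MMg δ a l i j = a c d) ∨ ∃ c d, MMg δ a l i j = l c d := by
  fin_cases i <;> fin_cases j <;>
  first
  | exact Or.inl rfl
  | exact Or.inr (Or.inl rfl)
  | exact Or.inr (Or.inr (Or.inl ⟨0, 0, rfl⟩))
  | exact Or.inr (Or.inr (Or.inl ⟨0, 1, rfl⟩))
  | exact Or.inr (Or.inr (Or.inl ⟨1, 0, rfl⟩))
  | exact Or.inr (Or.inr (Or.inl ⟨1, 1, rfl⟩))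
  | exact Or.inr (Or.inr (Or.inr ⟨0, 0, rfl⟩))
  | exact Or.inr (Or.inr (Or.inr ⟨0, 1, rfl⟩))
  | exact Or.inr (Or.inr (Or.inr ⟨1, 0, rfl⟩))
  | exact Or.inr (Or.inr (Or.inr ⟨1, 1, rfl⟩))

variable (T₁ : Polynomial ℤ) (A : Fin 2 → Fin 2 → Polynomial ℤ)

/-- the matrix of the whole family -/
noncomputable def MM (s : ℕ) : Fin 5 → Fin 5 → Polynomial ℚ :=
  MMg (if s = 0 then 1 else 0) (Ah T₁ A s) (Lh T₁ A s)

lemma MM_cases (s : ℕ) (i j : Fin 5) : MM T₁ A s i j = 0 ∨ MM T₁ A s i j = (if s = 0 then 1 else 0) ∨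
    (∃ a b, MM T₁ A s i j = Ah T₁ A s a b) ∨ ∃ a b, MM T₁ A s i j = Lh T₁ A s a b :=
  MMg_cases _ _ _ i j

variable {T₁ A} {y w : Fin 2 → ℚ⟦X⟧}

lemma MM_eq (hy : ∀ i, ps (Polynomial.X * T₁) * d⁄dX ℚ (y i) = ∑ j, ps (A i j) * y j)
    (hw : ∀ i, ps (Polynomial.X * T₁) * d⁄dX ℚ (w i) = ∑ j, ps (A i j) * w j + PowerSeries.C (1 / 2 : ℚ) * (ps T₁ * y i))
    (s : ℕ) (i : Fin 5) : ps (Polynomial.X * T₁) ^ s * hd s ((![1, y 0, y 1, w 0, w 1] : Fin 5 → ℚ⟦X⟧) i) =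
      ∑ j, ((MM T₁ A s i j : Polynomial ℚ) : ℚ⟦X⟧) * (![1, y 0, y 1, w 0, w 1] : Fin 5 → ℚ⟦X⟧) j := by
  have h1 := hd_y hy s
  have h2 := hd_w hy hw s
  rw [Fin.sum_univ_five]
  fin_cases i
  · simp only [MM, MMg]
    rcases Nat.eq_zero_or_pos s with rfl | hs
    · simp [hd_zero]
    · have h3 : hd s (1 : ℚ⟦X⟧) = 0 := by
        ext m
        rw [coeff_hd, coeff_one, if_neg (by omega)]
        simp
      simp [h3, hs.ne']
  · have := h1 0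
    rw [Fin.sum_univ_two] at this
    simpa [MM, MMg] using this
  · have := h1 1
    rw [Fin.sum_univ_two] at this
    simpa [MM, MMg] using this
  · have := h2 0
    rw [Fin.sum_univ_two, Fin.sum_univ_two] at this
    simpa [MM, MMg, add_assoc] using this
  · have := h2 1
    rw [Fin.sum_univ_two, Fin.sum_univ_two] at this
    simpa [MM, MMg, add_assoc] using this

/-- Galochkin's condition -/
theorem der_of {B C₀ : ℝ} (hB : 1 ≤ B) (hC₀ : 1 ≤ C₀) (hT : Bd 3 B (Polynomial.X * T₁)) (hT₁ : Bd 2 B T₁)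
    (hA : ∀ i j, Bd 2 B (A i j))
    (hy : ∀ i, ps (Polynomial.X * T₁) * d⁄dX ℚ (y i) = ∑ j, ps (A i j) * y j)
    (hw : ∀ i, ps (Polynomial.X * T₁) * d⁄dX ℚ (w i) = ∑ j, ps (A i j) * w j + PowerSeries.C (1 / 2 : ℚ) * (ps T₁ * y i))
    (hdet : y 0 * w 1 - y 1 * w 0 = -1)
    (hden : ∀ m : ℕ, ∃ d : ℕ, 0 < d ∧ (d : ℝ) ≤ C₀ ^ (m + 1) ∧ (∀ i, IS m d (y i)) ∧ (∀ i, IS m d (w i))) :
    ∀ k : ℕ, ∃ g : ℕ, 0 < g ∧ (g : ℝ) ≤ (2 ^ 26 * B * C₀ ^ 8) ^ (k + 1) ∧ ∀ s ≤ k, ∃ G : Fin 5 → Fin 5 → Polynomial ℤ,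
    (∀ i j, (G i j).natDegree ≤ 3 * s) ∧ (∀ i j l, |(((G i j).coeff l : ℤ) : ℝ)| ≤ (2 ^ 26 * B * C₀ ^ 8) ^ (k + 1)) ∧
    ∀ i, (g : ℚ⟦X⟧) * (ps (Polynomial.X * T₁) ^ s * hd s ((![1, y 0, y 1, w 0, w 1] : Fin 5 → ℚ⟦X⟧) i)) =
      ∑ j, ps (G i j) * (![1, y 0, y 1, w 0, w 1] : Fin 5 → ℚ⟦X⟧) j := by
  intro k
  obtain ⟨d, hd0, hd, hyd, hwd⟩ := hden (4 * k)
  set g' := 2 * Nat.lcmUpto k * d * d with hg'
  set g := 2 * Nat.lcmUpto k * g' with hg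
  have hB0 : 0 < B := by linarith
  have hC0 : 0 < C₀ := by linarith
  have hlk := Nat.lcmUpto_pos k
  have hgb : (g : ℝ) * (192 * B) ^ k ≤ (2 ^ 26 * B * C₀ ^ 8) ^ (k + 1) := by
    have e1 : 2 * (Nat.lcmUpto k : ℝ) ≤ (2 ^ 9) ^ (k + 1) := by
      calc 2 * (Nat.lcmUpto k : ℝ) ≤ 2 * (2 ^ 8) ^ k := by linarith [lcm_bound k]
        _ ≤ 2 ^ (k + 1) * (2 ^ 8) ^ (k + 1) := by
            refine mul_le_mul (le_self_pow₀ (by norm_num) (by omega)) (pow_le_pow_right₀ (by norm_num) (by omega))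
              (by positivity) (by positivity)
        _ = _ := by rw [← mul_pow]; norm_num
    have e2 : (d : ℝ) ≤ (C₀ ^ 4) ^ (k + 1) := by
      refine hd.trans ?_
      rw [← pow_mul]
      exact pow_le_pow_right₀ hC₀ (by omega)
    have e3 : (192 * B) ^ k ≤ (2 ^ 8 * B) ^ (k + 1) := by
      calc (192 * B) ^ k ≤ (2 ^ 8 * B) ^ k := pow_le_pow_left₀ (by positivity) (by nlinarith) _
        _ ≤ _ := pow_le_pow_right₀ (by nlinarith) (by omega)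
    have e4 : (g : ℝ) = (2 * (Nat.lcmUpto k : ℝ)) * ((2 * (Nat.lcmUpto k : ℝ)) * d * d) := by
      rw [hg, hg']
      push_cast
      ring
    rw [e4]
    calc (2 * (Nat.lcmUpto k : ℝ)) * ((2 * (Nat.lcmUpto k : ℝ)) * d * d) * (192 * B) ^ k
        ≤ (2 ^ 9) ^ (k + 1) * ((2 ^ 9) ^ (k + 1) * (C₀ ^ 4) ^ (k + 1) * (C₀ ^ 4) ^ (k + 1)) * (2 ^ 8 * B) ^ (k + 1) := by
          gcongr
      _ = _ := by
          rw [← mul_pow, ← mul_pow, ← mul_pow, ← mul_pow]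
          congr 1
          ring
  have hg0 : 0 < g := by positivity
  have hg1 : (g : ℝ) ≤ (2 ^ 26 * B * C₀ ^ 8) ^ (k + 1) := by
    refine le_trans ?_ hgb
    have : (1 : ℝ) ≤ (192 * B) ^ k := one_le_pow₀ (by linarith)
    have h0 : (0 : ℝ) ≤ g := by positivity
    nlinarith
  refine ⟨g, hg0, hg1, fun s hs => ?_⟩
  have hsize := Ah_size hB hT hA
  have hIP : ∀ s' ≤ k, ∀ a b, IP g' (Ah T₁ A s' a b) := fun s' hs' a b =>
    IP_Ah hdet hy hw hyd hwd hs' (fun i j => (hsize s' i j).1) a b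
  have hR : (1 : ℝ) ≤ (192 * B) ^ s := one_le_pow₀ (by linarith)
  have hall : ∀ i j, IP g (MM T₁ A s i j) ∧ Bq (3 * s) ((192 * B) ^ s) (MM T₁ A s i j) := by
    intro i j
    rcases MM_cases T₁ A s i j with h | h | ⟨a, b, h⟩ | ⟨a, b, h⟩
    · rw [h]
      exact ⟨IP.zero g, Bq.zero.mono (Nat.zero_le _) (by positivity)⟩
    · rw [h]
      split_ifs
      · exact ⟨IP.one g, Bq.one.mono (Nat.zero_le _) hR⟩
      · exact ⟨IP.zero g, Bq.zero.mono (Nat.zero_le _) (by positivity)⟩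
    · rw [h]
      exact ⟨(hIP s hs a b).mul_left _, (hsize s a b).mono le_rfl (pow_le_pow_left₀ (by positivity) (by linarith) _)⟩
    · rw [h]
      exact ⟨IP_Lh hs a b fun s' hs' => hIP s' hs' a b, Lh_size hB hT hT₁ hA s a b⟩
  choose G hG1 hG2 hG3 using fun i j => (hall i j).1.lift (hall i j).2
  refine ⟨G, hG2, fun i j l => (hG3 i j l).trans ?_, fun i => ?_⟩
  · refine le_trans ?_ hgb
    refine mul_le_mul_of_nonneg_left ?_ (by positivity)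
    exact pow_le_pow_right₀ (by linarith) hs
  · rw [MM_eq hy hw s i, Finset.mul_sum]
    refine Finset.sum_congr rfl fun j _ => ?_
    rw [ps_eq, hG1 i j, Polynomial.coe_mul, Polynomial.coe_C]
    simp only [map_natCast]
    ring

end Two

lemma ps_sub (P Q : Polynomial ℤ) : ps (P - Q) = ps P - ps Q := by
  simp [ps]

lemma ps_X : ps Polynomial.X = X := by simp [ps]

lemma Bd.lin (a : ℤ) (B : ℝ) (h1 : 1 ≤ B) (ha : |(a : ℝ)| ≤ B) : Bd 1 B (1 - Polynomial.C a * Polynomial.X) := by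
  refine ⟨?_, fun l => ?_⟩
  · refine (Polynomial.natDegree_sub_le _ _).trans (max_le (by simp) ?_)
    exact (Polynomial.natDegree_C_mul_le _ _).trans Polynomial.natDegree_X_le
  · rw [Polynomial.coeff_sub, Polynomial.coeff_one, Polynomial.coeff_C_mul, Polynomial.coeff_X]
    rcases l with _ | _ | l
    · simpa using h1
    · simpa using ha
    · simp
      linarith

/-- the denominator without the factor `z` -/
noncomputable def TO (g : ℕ) : Polynomial ℤ :=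
  Polynomial.C 2 * ((1 - Polynomial.C (g : ℤ) * Polynomial.X) * (1 - Polynomial.C ((g : ℤ) + 1) * Polynomial.X))

/-- the matrix of the Legendre system -/
noncomputable def AO (g : ℕ) : Fin 2 → Fin 2 → Polynomial ℤ :=
  ![![Polynomial.C (-1) * (1 - Polynomial.C ((g : ℤ) + 1) * Polynomial.X), 1 - Polynomial.C (g : ℤ) * Polynomial.X],
    ![Polynomial.C (-1) * (1 - Polynomial.C ((g : ℤ) + 1) * Polynomial.X), 1 - Polynomial.C ((g : ℤ) + 1) * Polynomial.X]]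

lemma TT_eq (g : ℕ) : TT g = Polynomial.X * TO g := by
  unfold TT TO
  have : (Polynomial.C (2 : ℤ)) = 2 := by simp
  rw [this]
  ring

lemma Bd_TO (g : ℕ) : Bd 2 (((g : ℝ) + 2) ^ 5) (TO g) ∧ Bd 3 (((g : ℝ) + 2) ^ 5) (Polynomial.X * TO g) ∧
    ∀ i j, Bd 2 (((g : ℝ) + 2) ^ 5) (AO g i j) := by
  have hg : (0 : ℝ) ≤ g := by positivity
  have hg2 : (2 : ℝ) ≤ (g : ℝ) + 2 := by linarith
  have h1 : Bd 1 ((g : ℝ) + 2) (1 - Polynomial.C (g : ℤ) * Polynomial.X) := by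
    refine Bd.lin _ _ (by linarith) ?_
    push_cast
    rw [abs_of_nonneg hg]
    linarith
  have h2 : Bd 1 ((g : ℝ) + 2) (1 - Polynomial.C ((g : ℤ) + 1) * Polynomial.X) := by
    refine Bd.lin _ _ (by linarith) ?_
    push_cast
    rw [abs_of_nonneg (by linarith)]
    linarith
  have h3 : Bd 2 (2 * ((1 + 1) * (((g : ℝ) + 2) * ((g : ℝ) + 2)))) (TO g) := by
    have h := (h1.mul h2).C_mul (c := 2) (B := 2) (by norm_num)
    push_cast at h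
    exact h
  have hX : Bd 1 1 (Polynomial.X : Polynomial ℤ) := by
    refine ⟨Polynomial.natDegree_X_le, fun l => ?_⟩
    rw [Polynomial.coeff_X]
    split_ifs <;> simp
  have h4 : Bd 3 ((1 + 1) * (1 * (2 * ((1 + 1) * (((g : ℝ) + 2) * ((g : ℝ) + 2)))))) (Polynomial.X * TO g) := by
    have h := hX.mul h3
    push_cast at h
    exact h
  have e5 : ((g : ℝ) + 2) ^ 5 = ((g : ℝ) + 2) ^ 3 * (((g : ℝ) + 2) * ((g : ℝ) + 2)) := by ring
  have e3 : (8 : ℝ) ≤ ((g : ℝ) + 2) ^ 3 := by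
    calc (8 : ℝ) = 2 ^ 3 := by norm_num
      _ ≤ _ := pow_le_pow_left₀ (by norm_num) hg2 _
  have hpos : 0 ≤ ((g : ℝ) + 2) * ((g : ℝ) + 2) := by positivity
  have e1 : (g : ℝ) + 2 ≤ ((g : ℝ) + 2) ^ 5 := le_self_pow₀ (by linarith) (by norm_num)
  have h5 : Bd 2 (1 * ((g : ℝ) + 2)) (Polynomial.C (-1) * (1 - Polynomial.C ((g : ℤ) + 1) * Polynomial.X)) :=
    ((h2.C_mul (c := -1) (B := 1) (by norm_num))).mono (by omega) le_rfl
  refine ⟨h3.mono le_rfl (by rw [e5]; nlinarith), h4.mono le_rfl (by rw [e5]; nlinarith), ?_⟩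
  intro i j
  fin_cases i <;> fin_cases j
  · exact h5.mono le_rfl (by linarith)
  · exact h1.mono (by omega) e1
  · exact h5.mono le_rfl (by linarith)
  · exact h2.mono (by omega) e1

/-- the base family is a G-system -/
theorem base_of (ho : T_ode) : T_base := by
  obtain ⟨E₀, hE₀⟩ := t_sd
  refine ⟨31 + 8 * E₀, fun g => ?_⟩
  obtain ⟨hsz, hden⟩ := hE₀ g
  obtain ⟨hdet, hu, hv, hw, hx⟩ := ho g
  obtain ⟨hB1, hB2, hB3⟩ := Bd_TO g
  have hg1 := one_le_base g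
  have hg0 : (0 : ℝ) ≤ g := by positivity
  set C := ((g : ℝ) + 2) ^ (31 + 8 * E₀) with hC
  have hC1 : 1 ≤ C := one_le_pow₀ hg1
  have hCE : ((g : ℝ) + 2) ^ E₀ ≤ C := base_mono hg1 (by omega)
  have hpsT : ps (TT g) = ps (Polynomial.X * TO g) := by rw [TT_eq]
  have e1 : ps (1 - Polynomial.C (g : ℤ) * Polynomial.X) = 1 - (g : ℚ⟦X⟧) * X := by
    rw [ps_sub, ps_mul, ps_C, ps_X, ps_one]
    push_cast
    rfl
  have e2 : ps (1 - Polynomial.C ((g : ℤ) + 1) * Polynomial.X) = 1 - ((g : ℚ⟦X⟧) + 1) * X := by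
    rw [ps_sub, ps_mul, ps_C, ps_X, ps_one]
    push_cast
    rfl
  have e3 : ps (Polynomial.C (-1) * (1 - Polynomial.C ((g : ℤ) + 1) * Polynomial.X)) = - (1 - ((g : ℚ⟦X⟧) + 1) * X) := by
    rw [ps_mul, e2, ps_C]
    push_cast
    ring
  have e4 : PowerSeries.C (1 / 2 : ℚ) * ps (TO g) = (1 - (g : ℚ⟦X⟧) * X) * (1 - ((g : ℚ⟦X⟧) + 1) * X) := by
    unfold TO
    rw [ps_mul, ps_mul, e1, e2, ps_C]
    have : PowerSeries.C (1 / 2 : ℚ) * ((2 : ℤ) : ℚ⟦X⟧) = 1 := by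
      have h2 : ((2 : ℤ) : ℚ⟦X⟧) = PowerSeries.C (((2 : ℤ) : ℚ)) := (map_intCast _ _).symm
      rw [h2, ← map_mul]
      norm_num
    rw [← mul_assoc, this, one_mul]
  have hY : ∀ i : Fin 2, ps (Polynomial.X * TO g) * d⁄dX ℚ ((![uu g, vv g] : Fin 2 → ℚ⟦X⟧) i) =
      ∑ j, ps (AO g i j) * (![uu g, vv g] : Fin 2 → ℚ⟦X⟧) j := by
    intro i
    rw [Fin.sum_univ_two, ← hpsT]
    fin_cases i
    · show ps (TT g) * d⁄dX ℚ (uu g) = ps (Polynomial.C (-1) * (1 - Polynomial.C ((g : ℤ) + 1) * Polynomial.X)) * uu g +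
        ps (1 - Polynomial.C (g : ℤ) * Polynomial.X) * vv g
      rw [e3, e1, hu]
    · show ps (TT g) * d⁄dX ℚ (vv g) = ps (Polynomial.C (-1) * (1 - Polynomial.C ((g : ℤ) + 1) * Polynomial.X)) * uu g +
        ps (1 - Polynomial.C ((g : ℤ) + 1) * Polynomial.X) * vv g
      rw [e3, e2, hv]
  have hW : ∀ i : Fin 2, ps (Polynomial.X * TO g) * d⁄dX ℚ ((![ww g, xx g] : Fin 2 → ℚ⟦X⟧) i) =
      ∑ j, ps (AO g i j) * (![ww g, xx g] : Fin 2 → ℚ⟦X⟧) j +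
      PowerSeries.C (1 / 2 : ℚ) * (ps (TO g) * (![uu g, vv g] : Fin 2 → ℚ⟦X⟧) i) := by
    intro i
    rw [Fin.sum_univ_two, ← hpsT]
    fin_cases i
    · show ps (TT g) * d⁄dX ℚ (ww g) = ps (Polynomial.C (-1) * (1 - Polynomial.C ((g : ℤ) + 1) * Polynomial.X)) * ww g +
        ps (1 - Polynomial.C (g : ℤ) * Polynomial.X) * xx g + PowerSeries.C (1 / 2 : ℚ) * (ps (TO g) * uu g)
      rw [e3, e1, hw, ← mul_assoc, e4]
    · show ps (TT g) * d⁄dX ℚ (xx g) = ps (Polynomial.C (-1) * (1 - Polynomial.C ((g : ℤ) + 1) * Polynomial.X)) * ww g +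
        ps (1 - Polynomial.C ((g : ℤ) + 1) * Polynomial.X) * xx g + PowerSeries.C (1 / 2 : ℚ) * (ps (TO g) * vv g)
      rw [e3, e2, hx, ← mul_assoc, e4]
  have hdd : ∀ m : ℕ, ∃ d : ℕ, 0 < d ∧ (d : ℝ) ≤ (((g : ℝ) + 2) ^ E₀) ^ (m + 1) ∧
      (∀ i, IS m d ((![uu g, vv g] : Fin 2 → ℚ⟦X⟧) i)) ∧ (∀ i, IS m d ((![ww g, xx g] : Fin 2 → ℚ⟦X⟧) i)) := by
    intro m
    obtain ⟨d, hd0, hd, hd'⟩ := hden m
    refine ⟨d, hd0, hd, fun i => ?_, fun i => ?_⟩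
    · fin_cases i
      · exact hd' 1
      · exact hd' 2
    · fin_cases i
      · exact hd' 3
      · exact hd' 4
  have hmain := der_of (B := ((g : ℝ) + 2) ^ 5) (C₀ := ((g : ℝ) + 2) ^ E₀) (one_le_pow₀ hg1) (one_le_pow₀ hg1)
    hB2 hB1 hB3 hY hW hdet hdd
  have hbound : 2 ^ 26 * ((g : ℝ) + 2) ^ 5 * (((g : ℝ) + 2) ^ E₀) ^ 8 ≤ C := by
    rw [hC, show 31 + 8 * E₀ = 26 + 5 + E₀ * 8 by ring, pow_add, pow_add, pow_mul]
    have := two_pow_le g 26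
    gcongr
  refine ⟨hC1, ?_, fun l => ?_, fun i m => ?_, fun m => ?_, fun k => ?_⟩
  · rw [TT_eq]; exact hB2.1
  · rw [TT_eq]
    exact (hB2.2 l).trans (base_mono hg1 (by omega))
  · exact (hsz i m).trans (pow_le_pow_left₀ (by positivity) hCE _)
  · obtain ⟨d, hd0, hd, hd'⟩ := hden m
    exact ⟨d, hd0, hd.trans (pow_le_pow_left₀ (by positivity) hCE _), hd'⟩
  · obtain ⟨G, hG0, hG, hG'⟩ := hmain k
    refine ⟨G, hG0, hG.trans (pow_le_pow_left₀ (by positivity) hbound _), fun s hs => ?_⟩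
    obtain ⟨M, h1, h2, h3⟩ := hG' s hs
    refine ⟨M, h1, fun i j l => (h2 i j l).trans (pow_le_pow_left₀ (by positivity) hbound _), fun i => ?_⟩
    rw [hpsT]
    exact h3 i

end Pool.Agent.Y113
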