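import Pool.Agent.Y113.P.SD
import Pool.Agent.Y113.G.Rec

/-!
# Project GF: Galochkin's condition for rank two systems with a logarithm
-/

set_option autoImplicit false

open PowerSeries Finset.HasAntidiagonal

namespace Pool.Agent.Y113

/-- degree `≤ n` and coefficients `≤ A`, rational polynomials -/
def Bq (n : ℕ) (A : ℝ) (P : Polynomial ℚ) : Prop := P.natDegree ≤ n ∧ ∀ l, |((P.coeff l : ℚ) : ℝ)| ≤ A

lemma Bq.nonneg {n : ℕ} {A : ℝ} {P : Polynomial ℚ} (h : Bq n A P) : 0 ≤ A := (abs_nonneg _).trans (h.2 0)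

lemma Bq.mono {n n' : ℕ} {A A' : ℝ} {P : Polynomial ℚ} (h : Bq n A P) (hn : n ≤ n') (hA : A ≤ A') : Bq n' A' P :=
  ⟨h.1.trans hn, fun l => (h.2 l).trans hA⟩

lemma Bd.toBq {n : ℕ} {A : ℝ} {P : Polynomial ℤ} (h : Bd n A P) : Bq n A (P.map (Int.castRingHom ℚ)) := by
  refine ⟨Polynomial.natDegree_map_le.trans h.1, fun l => ?_⟩
  rw [Polynomial.coeff_map]
  simpa using h.2 l

lemma Bq.mul {n m : ℕ} {A B : ℝ} {P Q : Polynomial ℚ} (h : Bq n A P) (h' : Bq m B Q) :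
    Bq (n + m) ((n + 1) * (A * B)) (P * Q) := by
  refine ⟨Polynomial.natDegree_mul_le.trans (add_le_add h.1 h'.1), fun l => ?_⟩
  rw [Polynomial.coeff_mul]
  push_cast
  have h1 : ∑ p ∈ antidiagonal l, ((P.coeff p.1 : ℚ) : ℝ) * ((Q.coeff p.2 : ℚ) : ℝ) =
      ∑ p ∈ (antidiagonal l).filter (fun p => p.1 ≤ n), ((P.coeff p.1 : ℚ) : ℝ) * ((Q.coeff p.2 : ℚ) : ℝ) := by
    symm
    refine Finset.sum_subset (Finset.filter_subset _ _) fun p hp hp' => ?_
    have h2 : n < p.1 := by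
      by_contra h3
      exact hp' (Finset.mem_filter.2 ⟨hp, not_lt.1 h3⟩)
    rw [Polynomial.coeff_eq_zero_of_natDegree_lt (lt_of_le_of_lt h.1 h2)]
    simp
  rw [h1]
  refine (Finset.abs_sum_le_sum_abs _ _).trans ?_
  refine (Finset.sum_le_card_nsmul _ _ (A * B) fun p _ => ?_).trans ?_
  · rw [abs_mul]
    exact mul_le_mul (h.2 _) (h'.2 _) (abs_nonneg _) h.nonneg
  · rw [nsmul_eq_mul]
    have h3 : ((antidiagonal l).filter (fun p => p.1 ≤ n)).card ≤ n + 1 := by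
      have h4 : ((antidiagonal l).filter (fun p => p.1 ≤ n)).card ≤ (Finset.range (n + 1)).card := by
        refine Finset.card_le_card_of_injOn (fun p => p.1) (fun p hp => ?_) ?_
        · have := (Finset.mem_filter.1 hp).2
          simpa [Nat.lt_succ_iff] using this
        · intro p hp p' hp' hpp
          have e1 := (Finset.mem_filter.1 hp).1
          have e2 := (Finset.mem_filter.1 hp').1
          rw [Finset.HasAntidiagonal.mem_antidiagonal] at e1 e2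
          have e3 : p.1 = p'.1 := hpp
          exact Prod.ext e3 (by omega)
      simpa using h4
    have h5 : (((antidiagonal l).filter (fun p => p.1 ≤ n)).card : ℝ) ≤ (n : ℝ) + 1 := by exact_mod_cast h3
    exact mul_le_mul_of_nonneg_right h5 (mul_nonneg h.nonneg h'.nonneg)

lemma Bq.add {n : ℕ} {A B : ℝ} {P Q : Polynomial ℚ} (h : Bq n A P) (h' : Bq n B Q) : Bq n (A + B) (P + Q) := by
  refine ⟨(Polynomial.natDegree_add_le _ _).trans (max_le h.1 h'.1), fun l => ?_⟩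
  rw [Polynomial.coeff_add]
  push_cast
  exact (abs_add_le _ _).trans (add_le_add (h.2 l) (h'.2 l))

lemma Bq.sub {n : ℕ} {A B : ℝ} {P Q : Polynomial ℚ} (h : Bq n A P) (h' : Bq n B Q) : Bq n (A + B) (P - Q) := by
  refine ⟨(Polynomial.natDegree_sub_le _ _).trans (max_le h.1 h'.1), fun l => ?_⟩
  rw [Polynomial.coeff_sub]
  push_cast
  exact (abs_sub _ _).trans (add_le_add (h.2 l) (h'.2 l))

lemma Bq.sum {n : ℕ} {A : ℝ} {σ : Type*} (s : Finset σ) {f : σ → Polynomial ℚ} (h : ∀ i ∈ s, Bq n A (f i)) :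
    Bq n (s.card * A) (∑ i ∈ s, f i) := by
  refine ⟨Polynomial.natDegree_sum_le_of_forall_le _ _ fun i hi => (h i hi).1, fun l => ?_⟩
  rw [Polynomial.finsetSum_coeff]
  push_cast
  refine (Finset.abs_sum_le_sum_abs _ _).trans ?_
  refine (Finset.sum_le_card_nsmul _ _ A fun i hi => (h i hi).2 l).trans ?_
  rw [nsmul_eq_mul]

lemma Bq.one : Bq 0 1 1 := by
  refine ⟨by simp, fun l => ?_⟩
  rw [Polynomial.coeff_one]
  split_ifs <;> simp

lemma Bq.zero : Bq 0 0 0 := ⟨by simp, fun l => by simp⟩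

lemma Bq.pow {n : ℕ} {A : ℝ} {P : Polynomial ℚ} (h : Bq n A P) (k : ℕ) : Bq (n * k) (((n + 1) * A) ^ k) (P ^ k) := by
  induction k with
  | zero => simpa using Bq.one
  | succ k ih =>
    have h1 := h.mul ih
    rw [pow_succ' P, show n * (k + 1) = n + n * k by ring]
    refine h1.mono le_rfl (le_of_eq ?_)
    rw [pow_succ']
    ring

lemma Bq.C_mul {n : ℕ} {A B : ℝ} {P : Polynomial ℚ} {c : ℚ} (h : Bq n A P) (hc : |(c : ℝ)| ≤ B) :
    Bq n (B * A) (Polynomial.C c * P) := by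
  refine ⟨(Polynomial.natDegree_C_mul_le _ _).trans h.1, fun l => ?_⟩
  rw [Polynomial.coeff_C_mul]
  push_cast
  rw [abs_mul]
  exact mul_le_mul hc (h.2 l) (abs_nonneg _) ((abs_nonneg _).trans hc)

lemma Bq.deriv {n : ℕ} {A : ℝ} {P : Polynomial ℚ} (h : Bq n A P) : Bq n (n * A) (Polynomial.derivative P) := by
  refine ⟨(Polynomial.natDegree_derivative_le P).trans ((Nat.sub_le _ _).trans h.1), fun l => ?_⟩
  rw [Polynomial.coeff_derivative]
  by_cases hl : l + 1 ≤ n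
  · push_cast
    rw [abs_mul, mul_comm]
    refine mul_le_mul ?_ (h.2 _) (abs_nonneg _) (by positivity)
    rw [abs_of_nonneg (by positivity)]
    exact_mod_cast hl
  · rw [Polynomial.coeff_eq_zero_of_natDegree_lt (lt_of_le_of_lt h.1 (by omega))]
    simp
    exact mul_nonneg (by positivity) h.nonneg

/-- integrality of a rational polynomial after multiplication by `g` -/
def IP (g : ℕ) (P : Polynomial ℚ) : Prop := ∃ Q : Polynomial ℤ, Q.map (Int.castRingHom ℚ) = Polynomial.C (g : ℚ) * P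

lemma IP.of_coeff {g : ℕ} {P : Polynomial ℚ} (h : ∀ l, ∃ a : ℤ, (g : ℚ) * P.coeff l = a) : IP g P := by
  choose a ha using h
  refine ⟨∑ l ∈ Finset.range (P.natDegree + 1), Polynomial.monomial l (a l), ?_⟩
  rw [Polynomial.map_sum]
  ext l
  rw [Polynomial.finsetSum_coeff, Polynomial.coeff_C_mul]
  simp only [Polynomial.map_monomial, Polynomial.coeff_monomial, eq_intCast]
  rw [Finset.sum_ite_eq' (Finset.range (P.natDegree + 1)) l (fun l => ((a l : ℤ) : ℚ))]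
  split_ifs with h1
  · exact (ha l).symm
  · rw [Finset.mem_range, not_lt] at h1
    rw [Polynomial.coeff_eq_zero_of_natDegree_lt (by omega), mul_zero]

lemma IP.mul_left {g : ℕ} {P : Polynomial ℚ} (h : IP g P) (n : ℕ) : IP (n * g) P := by
  obtain ⟨Q, hQ⟩ := h
  refine ⟨Polynomial.C (n : ℤ) * Q, ?_⟩
  rw [Polynomial.map_mul, hQ, Polynomial.map_C]
  push_cast
  rw [Polynomial.C_mul, mul_assoc]
  simp

lemma IP.zero (g : ℕ) : IP g 0 := ⟨0, by simp⟩

lemma IP.one (g : ℕ) : IP g 1 := ⟨Polynomial.C (g : ℤ), by simp⟩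

/-- integrality of the first coefficients of a power series -/
def IS (n : ℕ) (g : ℕ) (f : ℚ⟦X⟧) : Prop := ∀ j ≤ n, ∃ a : ℤ, (g : ℚ) * coeff j f = a

lemma IS.mul {n g h : ℕ} {f f' : ℚ⟦X⟧} (hf : IS n g f) (hf' : IS n h f') : IS n (g * h) (f * f') := by
  intro j hj
  choose! a ha using hf
  choose! b hb using hf'
  refine ⟨∑ p ∈ antidiagonal j, a p.1 * b p.2, ?_⟩
  rw [coeff_mul, Finset.mul_sum]
  push_cast
  refine Finset.sum_congr rfl fun p hp => ?_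
  rw [Finset.HasAntidiagonal.mem_antidiagonal] at hp
  rw [← ha p.1 (by omega), ← hb p.2 (by omega)]
  ring

lemma IS.sub {n g : ℕ} {f f' : ℚ⟦X⟧} (hf : IS n g f) (hf' : IS n g f') : IS n g (f - f') := by
  intro j hj
  obtain ⟨a, ha⟩ := hf j hj
  obtain ⟨b, hb⟩ := hf' j hj
  exact ⟨a - b, by rw [map_sub, mul_sub, ha, hb]; push_cast; rfl⟩

lemma IS.mul_left {n g : ℕ} {f : ℚ⟦X⟧} (hf : IS n g f) (m : ℕ) : IS n (m * g) f := by
  intro j hj
  obtain ⟨a, ha⟩ := hf j hj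
  exact ⟨m * a, by push_cast; rw [← ha]; ring⟩

lemma IS.sum {n g : ℕ} {σ : Type*} (s : Finset σ) {f : σ → ℚ⟦X⟧} (hf : ∀ i ∈ s, IS n g (f i)) :
    IS n g (∑ i ∈ s, f i) := by
  intro j hj
  have h1 : ∀ i ∈ s, ∃ a : ℤ, (g : ℚ) * coeff j (f i) = a := fun i hi => hf i hi j hj
  choose! a ha using h1
  refine ⟨∑ i ∈ s, a i, ?_⟩
  rw [map_sum, Finset.mul_sum]
  push_cast
  exact Finset.sum_congr rfl fun i hi => ha i hi

lemma IS.ps (n : ℕ) (P : Polynomial ℤ) : IS n 1 (Y113.ps P) := by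
  intro j _
  refine ⟨P.coeff j, ?_⟩
  unfold Y113.ps
  rw [Polynomial.coeff_coe, Polynomial.coeff_map]
  simp

lemma coeff_X_pow_hd (s j : ℕ) (f : ℚ⟦X⟧) : coeff j (X ^ s * hd s f) = (j.choose s : ℚ) * coeff j f := by
  rw [coeff_X_pow_mul']
  split_ifs with h
  · rw [coeff_hd]
    have e : j - s + s = j := by omega
    rw [e]
  · rw [Nat.choose_eq_zero_of_lt (by omega)]
    simp

lemma IS.hd {n g : ℕ} {f : ℚ⟦X⟧} (hf : IS n g f) (s : ℕ) : IS n g (X ^ s * Y113.hd s f) := by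
  intro j hj
  obtain ⟨a, ha⟩ := hf j hj
  refine ⟨(j.choose s : ℤ) * a, ?_⟩
  rw [coeff_X_pow_hd]
  push_cast
  rw [← ha]
  ring

/-- the coefficients of the logarithm -/
def bc (j : ℕ) : ℚ := (-1) ^ j / (j + 1)

/-- `∑_{j < s} bc j · z^(s-1-j) y^[s-1-j]` -/
noncomputable def Qc (f : ℚ⟦X⟧) (s : ℕ) : ℚ⟦X⟧ :=
  ∑ j ∈ Finset.range s, PowerSeries.C (bc j) * (X ^ (s - 1 - j) * hd (s - 1 - j) f)

lemma X_deriv_t (m : ℕ) (f : ℚ⟦X⟧) : X * d⁄dX ℚ (X ^ m * hd m f) =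
    (m : ℚ⟦X⟧) * (X ^ m * hd m f) + ((m : ℚ⟦X⟧) + 1) * (X ^ (m + 1) * hd (m + 1) f) := by
  rw [Derivation.leibniz, deriv_hd]
  simp only [Derivation.leibniz_pow, smul_eq_mul, nsmul_eq_mul]
  have hX : d⁄dX ℚ (X : ℚ⟦X⟧) = 1 := by simp
  rw [hX]
  rcases m with _ | m
  · simp
  · simp only [Nat.add_sub_cancel]
    ring

lemma Qc_rec (f : ℚ⟦X⟧) (s : ℕ) :
    X * d⁄dX ℚ (Qc f s) - (s : ℚ⟦X⟧) * Qc f s + X ^ s * hd s f = ((s : ℚ⟦X⟧) + 1) * Qc f (s + 1) := by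
  set t : ℕ → ℚ⟦X⟧ := fun m => X ^ m * hd m f with ht
  have hQ : ∀ s, Qc f s = ∑ j ∈ Finset.range s, PowerSeries.C (bc j) * t (s - 1 - j) := fun s => rfl
  have hb : ∀ j : ℕ, ((j : ℚ⟦X⟧) + 1) * PowerSeries.C (bc j) = (-1) ^ j := by
    intro j
    have h1 : ((j : ℚ⟦X⟧) + 1) = PowerSeries.C ((j : ℚ) + 1) := by simp
    have h2 : ((-1 : ℚ⟦X⟧)) ^ j = PowerSeries.C ((-1 : ℚ) ^ j) := by simp
    rw [h1, h2, ← map_mul]
    congr 1
    unfold bc
    field_simp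
  have h1 : X * d⁄dX ℚ (Qc f s) - (s : ℚ⟦X⟧) * Qc f s = ∑ j ∈ Finset.range s,
      (- ((-1) ^ j * t (s - 1 - j)) + PowerSeries.C (bc j) * ((s - j : ℕ) : ℚ⟦X⟧) * t (s - j)) := by
    rw [hQ, map_sum, Finset.mul_sum, Finset.mul_sum, ← Finset.sum_sub_distrib]
    refine Finset.sum_congr rfl fun j hj => ?_
    rw [Finset.mem_range] at hj
    have e1 : d⁄dX ℚ (PowerSeries.C (bc j) * t (s - 1 - j)) = PowerSeries.C (bc j) * d⁄dX ℚ (t (s - 1 - j)) := by
      rw [Derivation.leibniz]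
      simp
    have e2 := X_deriv_t (s - 1 - j) f
    rw [e1, ← mul_assoc, mul_comm X, mul_assoc]
    show PowerSeries.C (bc j) * (X * d⁄dX ℚ (X ^ (s - 1 - j) * hd (s - 1 - j) f)) - _ = _
    rw [e2]
    obtain ⟨m, hm⟩ : ∃ m, s = m + 1 + j := ⟨s - 1 - j, by omega⟩
    have e3 : s - 1 - j = m := by omega
    have e4 : s - j = m + 1 := by omega
    rw [e3, e4, hm, ← hb j]
    simp only [ht]
    push_cast
    ring
  rw [h1, hQ (s + 1)]
  have h2 : ((s : ℚ⟦X⟧) + 1) * ∑ j ∈ Finset.range (s + 1), PowerSeries.C (bc j) * t (s + 1 - 1 - j) =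
      (∑ j ∈ Finset.range (s + 1), PowerSeries.C (bc j) * ((s - j : ℕ) : ℚ⟦X⟧) * t (s - j)) +
      ∑ j ∈ Finset.range (s + 1), (-1) ^ j * t (s - j) := by
    rw [Finset.mul_sum, ← Finset.sum_add_distrib]
    refine Finset.sum_congr rfl fun j hj => ?_
    rw [Finset.mem_range] at hj
    obtain ⟨m, hm⟩ : ∃ m, s = m + j := ⟨s - j, by omega⟩
    have e3 : s + 1 - 1 - j = m := by omega
    have e4 : s - j = m := by omega
    rw [e3, e4, hm, ← hb j]
    push_cast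
    ring
  rw [h2, Finset.sum_range_succ, Finset.sum_range_succ' (fun j => (-1 : ℚ⟦X⟧) ^ j * t (s - j)), Finset.sum_add_distrib]
  have h3 : ∑ j ∈ Finset.range s, - ((-1 : ℚ⟦X⟧) ^ j * t (s - 1 - j)) =
      ∑ j ∈ Finset.range s, (-1 : ℚ⟦X⟧) ^ (j + 1) * t (s - (j + 1)) := by
    refine Finset.sum_congr rfl fun j _ => ?_
    have e : s - (j + 1) = s - 1 - j := by omega
    rw [e, pow_succ]
    ring
  rw [h3]
  simp only [ht, Nat.sub_self, Nat.cast_zero, pow_zero, Nat.sub_zero]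
  ring

end Pool.Agent.Y113
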