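import Pool.Agent.Y113.P.Gal

/-!
# Project GF: Galochkin's condition for rank two systems with a logarithm, end
-/

set_option autoImplicit false

open PowerSeries Finset.HasAntidiagonal

namespace Pool.Agent.Y113

section Two

variable (T₁ : Polynomial ℤ) (A : Fin 2 → Fin 2 → Polynomial ℤ)

/-- the denominator over `ℚ` -/
noncomputable def TQ : Polynomial ℚ := (Polynomial.X * T₁).map (Int.castRingHom ℚ)

/-- the matrix over `ℚ` -/
noncomputable def AQ : Fin 2 → Fin 2 → Polynomial ℚ := fun i j => (A i j).map (Int.castRingHom ℚ)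

/-- `T^s hd s y = Ah s y` -/
noncomputable def Ah (s : ℕ) (i j : Fin 2) : Polynomial ℚ :=
  Polynomial.C (1 / (s.factorial : ℚ)) * Bm (TQ T₁) (AQ A) s i j

lemma Ah_zero (i j : Fin 2) : Ah T₁ A 0 i j = if i = j then 1 else 0 := by
  simp [Ah, Bm]

lemma Ah_succ (s : ℕ) (i j : Fin 2) : Ah T₁ A (s + 1) i j = Polynomial.C (1 / ((s : ℚ) + 1)) *
    (TQ T₁ * Polynomial.derivative (Ah T₁ A s i j) - Polynomial.C (s : ℚ) * (Polynomial.derivative (TQ T₁) * Ah T₁ A s i j) +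
      ∑ l, AQ A l j * Ah T₁ A s i l) := by
  unfold Ah
  rw [Bm, Nat.factorial_succ]
  have h1 : (Polynomial.C (1 / (((s + 1) * s.factorial : ℕ) : ℚ)) : Polynomial ℚ) =
      Polynomial.C (1 / ((s : ℚ) + 1)) * Polynomial.C (1 / (s.factorial : ℚ)) := by
    rw [← Polynomial.C_mul]
    congr 1
    push_cast
    have : ((s : ℚ) + 1) ≠ 0 := by positivity
    have : (s.factorial : ℚ) ≠ 0 := by positivity
    field_simp
  rw [h1, mul_assoc]
  congr 1
  have h2 : (s : Polynomial ℚ) = Polynomial.C (s : ℚ) := by simp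
  rw [Polynomial.derivative_C_mul, mul_add, mul_sub, Finset.mul_sum, h2]
  congr 1
  · ring
  · exact Finset.sum_congr rfl fun l _ => by ring

variable {T₁ A}

lemma Ah_size {B : ℝ} (hB : 1 ≤ B) (hT : Bd 3 B (Polynomial.X * T₁)) (hA : ∀ i j, Bd 2 B (A i j)) (s : ℕ) (i j : Fin 2) :
    Bq (3 * s) ((24 * B) ^ s) (Ah T₁ A s i j) := by
  have hB0 : 0 < B := by linarith
  induction s generalizing i j with
  | zero =>
    rw [Ah_zero]
    split_ifs
    · simpa using Bq.one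
    · exact Bq.zero.mono le_rfl (by simp)
  | succ s ih =>
    rw [Ah_succ]
    set a := (24 * B) ^ s with ha
    have ha0 : 0 ≤ a := by positivity
    have hTQ : Bq 3 B (TQ T₁) := hT.toBq
    have h1 : Bq (3 + 3 * s) ((3 + 1) * (B * ((3 * s : ℕ) * a))) (TQ T₁ * Polynomial.derivative (Ah T₁ A s i j)) := by
      have := hTQ.mul (ih i j).deriv
      push_cast at this ⊢
      exact this
    have h2 : Bq (3 + 3 * s) (s * ((3 + 1) * ((3 * B) * a)))
        (Polynomial.C (s : ℚ) * (Polynomial.derivative (TQ T₁) * Ah T₁ A s i j)) := by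
      refine Bq.C_mul ?_ (by simp)
      have := hTQ.deriv.mul (ih i j)
      push_cast at this ⊢
      exact this
    have h3 : Bq (3 + 3 * s) ((Finset.univ : Finset (Fin 2)).card * ((2 + 1) * (B * a)))
        (∑ l, AQ A l j * Ah T₁ A s i l) := by
      refine Bq.sum _ fun l _ => ?_
      have := (hA l j).toBq.mul (ih i l)
      push_cast at this ⊢
      exact this.mono (by omega) le_rfl
    have h4 := ((h1.sub h2).add h3)
    have hs : (0 : ℝ) < (s : ℝ) + 1 := by positivity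
    have h5 : Bq (3 + 3 * s) (1 / ((s : ℝ) + 1) * ((3 + 1) * (B * ((3 * s : ℕ) * a)) + s * ((3 + 1) * ((3 * B) * a)) +
        (Finset.univ : Finset (Fin 2)).card * ((2 + 1) * (B * a)))) (Polynomial.C (1 / ((s : ℚ) + 1)) *
      (TQ T₁ * Polynomial.derivative (Ah T₁ A s i j) - Polynomial.C (s : ℚ) * (Polynomial.derivative (TQ T₁) * Ah T₁ A s i j) +
      ∑ l, AQ A l j * Ah T₁ A s i l)) := by
      refine Bq.C_mul h4 ?_
      push_cast
      rw [abs_of_nonneg (by positivity)]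
    refine h5.mono (by omega) ?_
    rw [div_mul_eq_mul_div, one_mul, div_le_iff₀ hs, Finset.card_univ, Fintype.card_fin]
    push_cast
    rw [pow_succ, ← ha]
    have : 0 ≤ B * a := by positivity
    have : (0 : ℝ) ≤ s := by positivity
    nlinarith

variable {y w : Fin 2 → ℚ⟦X⟧}

lemma ps_eq (P : Polynomial ℤ) : ps P = ((P.map (Int.castRingHom ℚ) : Polynomial ℚ) : ℚ⟦X⟧) := rfl

lemma fac_ne (s : ℕ) : (s.factorial : ℚ⟦X⟧) ≠ 0 := by
  rw [← map_natCast (PowerSeries.C (R := ℚ))]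
  intro h
  rw [map_eq_zero_iff _ (PowerSeries.C_injective)] at h
  exact s.factorial_ne_zero (by exact_mod_cast h)

lemma hd_y (hy : ∀ i, ps (Polynomial.X * T₁) * d⁄dX ℚ (y i) = ∑ j, ps (A i j) * y j) (s : ℕ) (i : Fin 2) :
    ps (Polynomial.X * T₁) ^ s * hd s (y i) = ∑ j, ((Ah T₁ A s i j : Polynomial ℚ) : ℚ⟦X⟧) * y j := by
  have h1 := rec_iter (Polynomial.coeToPowerSeries.ringHom (R := ℚ)) (fun p => by
    simp [PowerSeries.derivative_coe]) (T := TQ T₁) (B := AQ A) (Y := y) hy s i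
  refine mul_left_cancel₀ (fac_ne s) ?_
  have h2 : (s.factorial : ℚ⟦X⟧) * (ps (Polynomial.X * T₁) ^ s * hd s (y i)) =
      (Polynomial.coeToPowerSeries.ringHom (R := ℚ)) (TQ T₁) ^ s * (⇑(d⁄dX ℚ))^[s] (y i) := by
    rw [← fac_hd]
    show _ = (ps (Polynomial.X * T₁)) ^ s * _
    ring
  rw [h2, h1, Finset.mul_sum]
  refine Finset.sum_congr rfl fun j _ => ?_
  unfold Ah
  rw [Polynomial.coe_mul, Polynomial.coe_C]
  have h3 : (s.factorial : ℚ⟦X⟧) * PowerSeries.C (1 / (s.factorial : ℚ)) = 1 := by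
    rw [← map_natCast (PowerSeries.C (R := ℚ)), ← map_mul]
    have : (s.factorial : ℚ) ≠ 0 := by positivity
    rw [mul_one_div_cancel this, map_one]
  show ((Bm (TQ T₁) (AQ A) s i j : Polynomial ℚ) : ℚ⟦X⟧) * y j = _
  calc ((Bm (TQ T₁) (AQ A) s i j : Polynomial ℚ) : ℚ⟦X⟧) * y j
      = ((s.factorial : ℚ⟦X⟧) * PowerSeries.C (1 / (s.factorial : ℚ))) *
        (((Bm (TQ T₁) (AQ A) s i j : Polynomial ℚ) : ℚ⟦X⟧) * y j) := by rw [h3, one_mul]
    _ = _ := by ring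

/-- `z^s w^[s]` without the contribution of the logarithm -/
noncomputable def Rr (y w : Fin 2 → ℚ⟦X⟧) (s : ℕ) (i : Fin 2) : ℚ⟦X⟧ :=
  X ^ s * hd s (w i) - PowerSeries.C (1 / 2 : ℚ) * Qc (y i) s

lemma ps_XT : ps (Polynomial.X * T₁) = X * ps T₁ := by
  rw [ps_mul]
  congr 1
  simp [ps]

lemma Rr_eq (hy : ∀ i, ps (Polynomial.X * T₁) * d⁄dX ℚ (y i) = ∑ j, ps (A i j) * y j)
    (hw : ∀ i, ps (Polynomial.X * T₁) * d⁄dX ℚ (w i) = ∑ j, ps (A i j) * w j + PowerSeries.C (1 / 2 : ℚ) * (ps T₁ * y i))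
    (s : ℕ) (i : Fin 2) :
    ps (Polynomial.X * T₁) ^ s * Rr y w s i = X ^ s * ∑ j, ((Ah T₁ A s i j : Polynomial ℚ) : ℚ⟦X⟧) * w j := by
  induction s with
  | zero =>
    simp only [pow_zero, one_mul, Rr, Qc, Finset.range_zero, Finset.sum_empty, mul_zero, sub_zero, hd_zero, Ah_zero]
    rw [Finset.sum_eq_single i]
    · simp
    · intro j _ hj; simp [hj.symm]
    · simp
  | succ s ih =>
    set T := ps (Polynomial.X * T₁) with hT
    set T' := d⁄dX ℚ T with hT'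
    have hTT : T = X * ps T₁ := ps_XT
    have hT'Q : T' = ((Polynomial.derivative (TQ T₁) : Polynomial ℚ) : ℚ⟦X⟧) := by
      rw [hT', hT, ps_eq, PowerSeries.derivative_coe]
      rfl
    have hX : d⁄dX ℚ (X : ℚ⟦X⟧) = 1 := by simp
    -- the recursion for `R`
    have hR : ((s : ℚ⟦X⟧) + 1) * Rr y w (s + 1) i =
        X * d⁄dX ℚ (Rr y w s i) - (s : ℚ⟦X⟧) * Rr y w s i - PowerSeries.C (1 / 2 : ℚ) * (X ^ s * hd s (y i)) := by
      have e1 := X_deriv_t s (w i)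
      have e2 := Qc_rec (y i) s
      have e3 : d⁄dX ℚ (Rr y w s i) = d⁄dX ℚ (X ^ s * hd s (w i)) - PowerSeries.C (1 / 2 : ℚ) * d⁄dX ℚ (Qc (y i) s) := by
        unfold Rr
        rw [map_sub, Derivation.leibniz (d⁄dX ℚ) (PowerSeries.C (1 / 2 : ℚ))]
        simp
      rw [e3]
      unfold Rr
      linear_combination - e1 + PowerSeries.C (1 / 2 : ℚ) * e2
    -- derivative of the induction hypothesis
    have h1 := congrArg (fun x => (X * T) * d⁄dX ℚ x) ih
    simp only [Derivation.leibniz, map_sum, smul_eq_mul, Derivation.leibniz_pow, nsmul_eq_mul, hX, ← hT'] at h1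
    have hsX : X * ((s : ℚ⟦X⟧) * (X ^ (s - 1) * 1)) = (s : ℚ⟦X⟧) * X ^ s := by
      rcases s with _ | s
      · simp
      · simp only [Nat.add_sub_cancel]; ring
    have hsT : T * ((s : ℚ⟦X⟧) * (T ^ (s - 1) * T')) = (s : ℚ⟦X⟧) * T ^ s * T' := by
      rcases s with _ | s
      · simp
      · simp only [Nat.add_sub_cancel]; ring
    have hRT : T ^ s * Rr y w s i = X ^ s * ∑ j, ((Ah T₁ A s i j : Polynomial ℚ) : ℚ⟦X⟧) * w j := ih
    set S := ∑ j, ((Ah T₁ A s i j : Polynomial ℚ) : ℚ⟦X⟧) * w j with hS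
    set D' := ∑ j, (((Ah T₁ A s i j : Polynomial ℚ) : ℚ⟦X⟧) * d⁄dX ℚ (w j) + w j * d⁄dX ℚ ((Ah T₁ A s i j : Polynomial ℚ) : ℚ⟦X⟧)) with hD'
    have h2 : X * (T ^ (s + 1) * d⁄dX ℚ (Rr y w s i)) + X * T' * ((s : ℚ⟦X⟧) * (X ^ s * S)) =
        X ^ (s + 1) * (T * D') + T * ((s : ℚ⟦X⟧) * (X ^ s * S)) := by
      have e1 : X * T * (T ^ s * d⁄dX ℚ (Rr y w s i) + Rr y w s i * ((s : ℚ⟦X⟧) * (T ^ (s - 1) * T'))) =
          X * (T ^ (s + 1) * d⁄dX ℚ (Rr y w s i)) + X * T' * ((s : ℚ⟦X⟧) * (T ^ s * Rr y w s i)) := by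
        linear_combination (X * Rr y w s i) * hsT
      have e2 : X * T * (X ^ s * D' + S * ((s : ℚ⟦X⟧) * (X ^ (s - 1) * 1))) =
          X ^ (s + 1) * (T * D') + T * ((s : ℚ⟦X⟧) * (X ^ s * S)) := by
        linear_combination (T * S) * hsX
      rw [← e2, ← hRT, ← e1]
      exact h1
    -- the derivative of the solutions
    have h3 : T * D' = ((s : ℚ⟦X⟧) + 1) * (∑ j, ((Ah T₁ A (s + 1) i j : Polynomial ℚ) : ℚ⟦X⟧) * w j) +
        (s : ℚ⟦X⟧) * T' * S + PowerSeries.C (1 / 2 : ℚ) * ps T₁ * (T ^ s * hd s (y i)) := by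
      have e1 : T * D' = (∑ j, ((Ah T₁ A s i j : Polynomial ℚ) : ℚ⟦X⟧) * (T * d⁄dX ℚ (w j))) +
          ∑ j, (T * d⁄dX ℚ ((Ah T₁ A s i j : Polynomial ℚ) : ℚ⟦X⟧)) * w j := by
        rw [hD', Finset.mul_sum, ← Finset.sum_add_distrib]
        exact Finset.sum_congr rfl fun j _ => by ring
      have e2 : ∑ j, ((Ah T₁ A s i j : Polynomial ℚ) : ℚ⟦X⟧) * (T * d⁄dX ℚ (w j)) =
          (∑ j, (∑ l, ps (A l j) * ((Ah T₁ A s i l : Polynomial ℚ) : ℚ⟦X⟧)) * w j) +
          PowerSeries.C (1 / 2 : ℚ) * ps T₁ * (T ^ s * hd s (y i)) := by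
        rw [hd_y hy s i]
        simp only [hw, mul_add, Finset.sum_add_distrib, Finset.sum_mul, Finset.mul_sum]
        congr 1
        · rw [Finset.sum_comm]
          exact Finset.sum_congr rfl fun l _ => Finset.sum_congr rfl fun j _ => by ring
        · exact Finset.sum_congr rfl fun j _ => by ring
      have e3 : ((s : ℚ⟦X⟧) + 1) * (∑ j, ((Ah T₁ A (s + 1) i j : Polynomial ℚ) : ℚ⟦X⟧) * w j) =
          (∑ j, (T * d⁄dX ℚ ((Ah T₁ A s i j : Polynomial ℚ) : ℚ⟦X⟧)) * w j) - (s : ℚ⟦X⟧) * T' * S +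
          ∑ j, (∑ l, ps (A l j) * ((Ah T₁ A s i l : Polynomial ℚ) : ℚ⟦X⟧)) * w j := by
        rw [hS, Finset.mul_sum, Finset.mul_sum, ← Finset.sum_sub_distrib, ← Finset.sum_add_distrib]
        refine Finset.sum_congr rfl fun j _ => ?_
        rw [Ah_succ]
        simp only [Polynomial.coe_mul, Polynomial.coe_C, Polynomial.coe_add, Polynomial.coe_sub, PowerSeries.derivative_coe]
        have e4 : ((s : ℚ⟦X⟧) + 1) * PowerSeries.C (1 / ((s : ℚ) + 1)) = 1 := by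
          have : ((s : ℚ⟦X⟧) + 1) = PowerSeries.C ((s : ℚ) + 1) := by simp
          rw [this, ← map_mul]
          have : ((s : ℚ) + 1) ≠ 0 := by positivity
          rw [mul_one_div_cancel this, map_one]
        have e5 : ((∑ l, AQ A l j * Ah T₁ A s i l : Polynomial ℚ) : ℚ⟦X⟧) =
            ∑ l, ps (A l j) * ((Ah T₁ A s i l : Polynomial ℚ) : ℚ⟦X⟧) := by
          have := map_sum (Polynomial.coeToPowerSeries.ringHom (R := ℚ)) (fun l => AQ A l j * Ah T₁ A s i l) Finset.univ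
          refine this.trans (Finset.sum_congr rfl fun l _ => ?_)
          rw [map_mul]
          rfl
        have e6 : ((TQ T₁ : Polynomial ℚ) : ℚ⟦X⟧) = T := rfl
        have e7 : (PowerSeries.C (s : ℚ) : ℚ⟦X⟧) = (s : ℚ⟦X⟧) := by simp
        rw [e5, e6, e7, ← hT'Q, ← mul_assoc, ← mul_assoc, e4, one_mul]
        ring
      rw [e1, e2]
      linear_combination - e3
    have h4 : ((s : ℚ⟦X⟧) + 1) * (T ^ (s + 1) * Rr y w (s + 1) i) =
        ((s : ℚ⟦X⟧) + 1) * (X ^ (s + 1) * ∑ j, ((Ah T₁ A (s + 1) i j : Polynomial ℚ) : ℚ⟦X⟧) * w j) := by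
      have e1 : ((s : ℚ⟦X⟧) + 1) * (T ^ (s + 1) * Rr y w (s + 1) i) = T ^ (s + 1) * (((s : ℚ⟦X⟧) + 1) * Rr y w (s + 1) i) := by
        ring
      rw [e1, hR]
      have e2 : T ^ (s + 1) = T * T ^ s := pow_succ' T s
      have e3 : X ^ (s + 1) = X * (X : ℚ⟦X⟧) ^ s := pow_succ' _ s
      linear_combination h2 + X ^ (s + 1) * h3 - (s : ℚ⟦X⟧) * T * hRT + (T ^ s * hd s (y i)) * PowerSeries.C (1 / 2 : ℚ) * X ^ s * (- hTT)
    have h5 : ((s : ℚ⟦X⟧) + 1) ≠ 0 := by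
      have : ((s : ℚ⟦X⟧) + 1) = PowerSeries.C ((s : ℚ) + 1) := by simp
      rw [this]
      intro h
      rw [map_eq_zero_iff _ (PowerSeries.C_injective)] at h
      have : (0 : ℚ) < (s : ℚ) + 1 := by positivity
      linarith
    exact mul_left_cancel₀ h5 h4

end Two

end Pool.Agent.Y113
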