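import Pool.Agent.Y113.G.Hd

/-!
# Project GF: closure properties of G-systems
-/

set_option autoImplicit false

open PowerSeries Finset.HasAntidiagonal

namespace Pool.Agent.Y113

/-- degree `≤ n` and coefficients `≤ A` -/
def Bd (n : ℕ) (A : ℝ) (P : Polynomial ℤ) : Prop := P.natDegree ≤ n ∧ ∀ l, |((P.coeff l : ℤ) : ℝ)| ≤ A

lemma Bd.nonneg {n : ℕ} {A : ℝ} {P : Polynomial ℤ} (h : Bd n A P) : 0 ≤ A := (abs_nonneg _).trans (h.2 0)

lemma Bd.mono {n n' : ℕ} {A A' : ℝ} {P : Polynomial ℤ} (h : Bd n A P) (hn : n ≤ n') (hA : A ≤ A') : Bd n' A' P :=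
  ⟨h.1.trans hn, fun l => (h.2 l).trans hA⟩

lemma Bd.mul {n m : ℕ} {A B : ℝ} {P Q : Polynomial ℤ} (h : Bd n A P) (h' : Bd m B Q) :
    Bd (n + m) ((n + 1) * (A * B)) (P * Q) := by
  refine ⟨Polynomial.natDegree_mul_le.trans (add_le_add h.1 h'.1), fun l => ?_⟩
  rw [Polynomial.coeff_mul]
  push_cast
  have h1 : ∑ p ∈ antidiagonal l, ((P.coeff p.1 : ℤ) : ℝ) * ((Q.coeff p.2 : ℤ) : ℝ) =
      ∑ p ∈ (antidiagonal l).filter (fun p => p.1 ≤ n), ((P.coeff p.1 : ℤ) : ℝ) * ((Q.coeff p.2 : ℤ) : ℝ) := by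
    symm
    refine Finset.sum_subset (Finset.filter_subset _ _) fun p hp hp' => ?_
    have h2 : n < p.1 := by
      by_contra h3
      exact hp' (Finset.mem_filter.2 ⟨hp, not_lt.1 h3⟩)
    rw [Polynomial.coeff_eq_zero_of_natDegree_lt (lt_of_le_of_lt h.1 h2)]
    simp
  rw [h1]
  refine (Finset.abs_sum_le_sum_abs _ _).trans ?_
  refine (Finset.sum_le_card_nsmul _ _ (A * B) fun p _ => ?_).trans ?_
  · rw [abs_mul]
    exact mul_le_mul (h.2 _) (h'.2 _) (abs_nonneg _) h.nonneg
  · rw [nsmul_eq_mul]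
    have h3 : ((antidiagonal l).filter (fun p => p.1 ≤ n)).card ≤ n + 1 := by
      have h4 : ((antidiagonal l).filter (fun p => p.1 ≤ n)).card ≤ (Finset.range (n + 1)).card := by
        refine Finset.card_le_card_of_injOn (fun p => p.1) (fun p hp => ?_) ?_
        · have := (Finset.mem_filter.1 hp).2
          simpa [Nat.lt_succ_iff] using this
        · intro p hp p' hp' hpp
          have e1 := (Finset.mem_filter.1 hp).1
          have e2 := (Finset.mem_filter.1 hp').1
          rw [Finset.HasAntidiagonal.mem_antidiagonal] at e1 e2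
          have e3 : p.1 = p'.1 := hpp
          exact Prod.ext e3 (by omega)
      simpa using h4
    have h5 : (((antidiagonal l).filter (fun p => p.1 ≤ n)).card : ℝ) ≤ (n : ℝ) + 1 := by exact_mod_cast h3
    exact mul_le_mul_of_nonneg_right h5 (mul_nonneg h.nonneg h'.nonneg)

lemma Bd.sum {n : ℕ} {A : ℝ} {σ : Type*} (s : Finset σ) {f : σ → Polynomial ℤ} (h : ∀ i ∈ s, Bd n A (f i)) :
    Bd n (s.card * A) (∑ i ∈ s, f i) := by
  refine ⟨Polynomial.natDegree_sum_le_of_forall_le _ _ fun i hi => (h i hi).1, fun l => ?_⟩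
  rw [Polynomial.finsetSum_coeff]
  push_cast
  refine (Finset.abs_sum_le_sum_abs _ _).trans ?_
  refine (Finset.sum_le_card_nsmul _ _ A fun i hi => (h i hi).2 l).trans ?_
  rw [nsmul_eq_mul]

lemma Bd.one : Bd 0 1 1 := by
  refine ⟨by simp, fun l => ?_⟩
  rw [Polynomial.coeff_one]
  split_ifs <;> simp

lemma Bd.pow {n : ℕ} {A : ℝ} {P : Polynomial ℤ} (h : Bd n A P) (k : ℕ) : Bd (n * k) (((n + 1) * A) ^ k) (P ^ k) := by
  induction k with
  | zero => simpa using Bd.one
  | succ k ih =>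
    have h1 := h.mul ih
    rw [pow_succ' P, show n * (k + 1) = n + n * k by ring]
    refine h1.mono le_rfl (le_of_eq ?_)
    rw [pow_succ']
    ring

lemma Bd.C_mul {n : ℕ} {A B : ℝ} {P : Polynomial ℤ} {c : ℤ} (h : Bd n A P) (hc : |(c : ℝ)| ≤ B) :
    Bd n (B * A) (Polynomial.C c * P) := by
  refine ⟨(Polynomial.natDegree_C_mul_le _ _).trans h.1, fun l => ?_⟩
  rw [Polynomial.coeff_C_mul]
  push_cast
  rw [abs_mul]
  exact mul_le_mul hc (h.2 l) (abs_nonneg _) ((abs_nonneg _).trans hc)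

lemma succ_le_two_pow (k : ℕ) : (k : ℝ) + 1 ≤ 2 ^ k := by
  have := Nat.lt_two_pow_self (n := k)
  exact_mod_cast this

lemma ps_mul (P Q : Polynomial ℤ) : ps (P * Q) = ps P * ps Q := by
  simp [ps]

lemma ps_pow (P : Polynomial ℤ) (k : ℕ) : ps (P ^ k) = ps P ^ k := by
  simp [ps]

lemma ps_sum {σ : Type*} (s : Finset σ) (f : σ → Polynomial ℤ) : ps (∑ i ∈ s, f i) = ∑ i ∈ s, ps (f i) := by
  unfold ps
  rw [Polynomial.map_sum]
  exact map_sum (Polynomial.coeToPowerSeries.ringHom (R := ℚ)) _ _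

lemma ps_C (c : ℤ) : ps (Polynomial.C c) = (c : ℚ⟦X⟧) := by
  unfold ps
  rw [Polynomial.map_C, Polynomial.coe_C]
  simp

lemma ps_one : ps 1 = 1 := by simp [ps]

lemma ps_zero : ps 0 = 0 := by simp [ps]

variable {ι κ : Type} [Fintype ι] [Fintype κ] {q : ℕ} {C : ℝ} {T : Polynomial ℤ} {y : ι → ℚ⟦X⟧} {w : κ → ℚ⟦X⟧}

lemma GSys.mono (h : GSys q C T y) {q' : ℕ} {C' : ℝ} (hq : q ≤ q') (hC : C ≤ C') : GSys q' C' T y := by
  have hC0 : 0 ≤ C := zero_le_one.trans h.one_le
  refine ⟨h.one_le.trans hC, h.degT.trans hq, fun l => (h.sizeT l).trans hC,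
    fun i m => (h.size i m).trans (pow_le_pow_left₀ hC0 hC _), fun m => ?_, fun k => ?_⟩
  · obtain ⟨d, hd0, hd, hd'⟩ := h.den m
    exact ⟨d, hd0, hd.trans (pow_le_pow_left₀ hC0 hC _), hd'⟩
  · obtain ⟨g, hg0, hg, hg'⟩ := h.der k
    refine ⟨g, hg0, hg.trans (pow_le_pow_left₀ hC0 hC _), fun s hs => ?_⟩
    obtain ⟨G, h1, h2, h3⟩ := hg' s hs
    exact ⟨G, fun i j => (h1 i j).trans (Nat.mul_le_mul_right _ hq),
      fun i j l => (h2 i j l).trans (pow_le_pow_left₀ hC0 hC _), h3⟩

lemma GSys.reindex (h : GSys q C T y) (e : κ ≃ ι) : GSys q C T (fun j => y (e j)) := by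
  refine ⟨h.one_le, h.degT, h.sizeT, fun i m => h.size _ m, fun m => ?_, fun k => ?_⟩
  · obtain ⟨d, hd0, hd, hd'⟩ := h.den m
    exact ⟨d, hd0, hd, fun i j hj => hd' _ j hj⟩
  · obtain ⟨g, hg0, hg, hg'⟩ := h.der k
    refine ⟨g, hg0, hg, fun s hs => ?_⟩
    obtain ⟨G, h1, h2, h3⟩ := hg' s hs
    refine ⟨fun i j => G (e i) (e j), fun i j => h1 _ _, fun i j l => h2 _ _ l, fun i => ?_⟩
    rw [h3 (e i)]
    exact (Equiv.sum_comp e (fun j => ps (G (e i) j) * y j)).symm

theorem t_prod : T_prod := by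
  intro q
  refine ⟨q + 2, ?_⟩
  intro ι κ _ _ C T y w hy hw
  have hC := hy.one_le
  have hC0 : 0 < C := zero_lt_one.trans_le hC
  have h2C : 1 ≤ 2 * C := by linarith
  have hCC : C ≤ (2 * C) ^ (q + 2) := by
    calc C ≤ 2 * C := by linarith
      _ = (2 * C) ^ 1 := (pow_one _).symm
      _ ≤ _ := pow_le_pow_right₀ h2C (by omega)
  have hC2 : ∀ m : ℕ, C ^ (m + 1) * C ^ (m + 1) ≤ ((2 * C) ^ (q + 2)) ^ (m + 1) := by
    intro m
    rw [← mul_pow]
    refine pow_le_pow_left₀ (by positivity) ?_ _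
    calc C * C ≤ (2 * C) ^ 2 := by nlinarith
      _ ≤ _ := pow_le_pow_right₀ h2C (by omega)
  refine ⟨?_, hy.degT, fun l => (hy.sizeT l).trans hCC, ?_, ?_, ?_⟩
  · exact one_le_pow₀ h2C
  · rintro ⟨i, j⟩ m
    show |((coeff m (y i * w j) : ℚ) : ℝ)| ≤ _
    rw [coeff_mul]
    push_cast
    refine (Finset.abs_sum_le_sum_abs _ _).trans ?_
    refine (Finset.sum_le_card_nsmul _ _ (C ^ (m + 1) * C ^ (m + 1)) fun p hp => ?_).trans ?_
    · rw [Finset.HasAntidiagonal.mem_antidiagonal] at hp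
      rw [abs_mul]
      refine mul_le_mul ((hy.size i _).trans (pow_le_pow_right₀ hC (by omega)))
        ((hw.size j _).trans (pow_le_pow_right₀ hC (by omega))) (abs_nonneg _) (by positivity)
    · rw [nsmul_eq_mul, Finset.Nat.card_antidiagonal]
      push_cast
      calc ((m : ℝ) + 1) * (C ^ (m + 1) * C ^ (m + 1)) ≤ 2 ^ (m + 1) * (C ^ (m + 1) * C ^ (m + 1)) := by
            refine mul_le_mul_of_nonneg_right ?_ (by positivity)
            exact (succ_le_two_pow m).trans (pow_le_pow_right₀ (by norm_num) (by omega))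
        _ = (2 * (C * C)) ^ (m + 1) := by rw [mul_pow, mul_pow]
        _ ≤ _ := by
            refine pow_le_pow_left₀ (by positivity) ?_ _
            calc 2 * (C * C) ≤ (2 * C) ^ 2 := by nlinarith
              _ ≤ _ := pow_le_pow_right₀ h2C (by omega)
  · intro m
    obtain ⟨d, hd0, hd, hd'⟩ := hy.den m
    obtain ⟨e, he0, he, he'⟩ := hw.den m
    refine ⟨d * e, Nat.mul_pos hd0 he0, ?_, ?_⟩
    · push_cast
      exact (mul_le_mul hd he (by positivity) (by positivity)).trans (hC2 m)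
    · rintro ⟨i, i'⟩ j hj
      show ∃ a : ℤ, ((d * e : ℕ) : ℚ) * coeff j (y i * w i') = a
      choose! a ha using hd' i
      choose! b hb using he' i'
      refine ⟨∑ p ∈ antidiagonal j, a p.1 * b p.2, ?_⟩
      rw [coeff_mul, Finset.mul_sum]
      push_cast
      refine Finset.sum_congr rfl fun p hp => ?_
      rw [Finset.HasAntidiagonal.mem_antidiagonal] at hp
      rw [← ha p.1 (by omega), ← hb p.2 (by omega)]
      ring
  · intro k
    obtain ⟨g, hg0, hg, hg'⟩ := hy.der k
    obtain ⟨g', hg0', hgb', hg''⟩ := hw.der k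
    refine ⟨g * g', Nat.mul_pos hg0 hg0', ?_, ?_⟩
    · push_cast
      exact (mul_le_mul hg hgb' (by positivity) (by positivity)).trans (hC2 k)
    · intro s hs
      choose! G h1 h2 h3 using hg'
      choose! G' h1' h2' h3' using hg''
      refine ⟨fun i j => ∑ p ∈ antidiagonal s, G p.1 i.1 j.1 * G' p.2 i.2 j.2, ?_, ?_, ?_⟩
      · intro i j
        refine Polynomial.natDegree_sum_le_of_forall_le _ _ fun p hp => ?_
        rw [Finset.HasAntidiagonal.mem_antidiagonal] at hp
        refine Polynomial.natDegree_mul_le.trans ?_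
        refine (add_le_add (h1 p.1 (by omega) i.1 j.1) (h1' p.2 (by omega) i.2 j.2)).trans ?_
        rw [← Nat.mul_add, hp]
      · intro i j l
        have hB : ∀ p ∈ antidiagonal s, Bd (q * s) ((q * k + 1) * (C ^ (k + 1) * C ^ (k + 1)))
            (G p.1 i.1 j.1 * G' p.2 i.2 j.2) := by
          intro p hp
          rw [Finset.HasAntidiagonal.mem_antidiagonal] at hp
          have e1 : Bd (q * p.1) (C ^ (k + 1)) (G p.1 i.1 j.1) := ⟨h1 p.1 (by omega) i.1 j.1, h2 p.1 (by omega) i.1 j.1⟩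
          have e2 : Bd (q * p.2) (C ^ (k + 1)) (G' p.2 i.2 j.2) :=
            ⟨h1' p.2 (by omega) i.2 j.2, h2' p.2 (by omega) i.2 j.2⟩
          refine (e1.mul e2).mono (le_of_eq (by rw [← hp]; ring)) ?_
          refine mul_le_mul_of_nonneg_right ?_ (by positivity)
          have : (p.1 : ℝ) ≤ k := by exact_mod_cast (by omega : p.1 ≤ k)
          push_cast
          have hq0 : (0 : ℝ) ≤ q := by positivity
          nlinarith
        have := (Bd.sum _ hB).2 l
        refine this.trans ?_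
        rw [Finset.Nat.card_antidiagonal]
        push_cast
        have e3 : (s : ℝ) + 1 ≤ 2 ^ (k + 1) := by
          refine (succ_le_two_pow s).trans (pow_le_pow_right₀ (by norm_num) (by omega))
        have e4 : (q : ℝ) * k + 1 ≤ (2 ^ q) ^ (k + 1) := by
          have := succ_le_two_pow (q * k)
          push_cast at this
          refine this.trans ?_
          rw [← pow_mul]
          exact pow_le_pow_right₀ (by norm_num) (by nlinarith)
        calc ((s : ℝ) + 1) * ((q * k + 1) * (C ^ (k + 1) * C ^ (k + 1)))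
            ≤ 2 ^ (k + 1) * ((2 ^ q) ^ (k + 1) * (C ^ (k + 1) * C ^ (k + 1))) := by
              refine mul_le_mul e3 ?_ (by positivity) (by positivity)
              exact mul_le_mul_of_nonneg_right e4 (by positivity)
          _ = (2 ^ (q + 1) * (C * C)) ^ (k + 1) := by
              rw [← mul_pow, ← mul_pow, ← mul_pow]
              congr 1
              ring
          _ ≤ _ := by
              refine pow_le_pow_left₀ (by positivity) ?_ _
              rw [mul_pow]
              refine mul_le_mul (pow_le_pow_right₀ (by norm_num) (by omega)) ?_ (by positivity) (by positivity)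
              calc C * C = C ^ 2 := by ring
                _ ≤ _ := pow_le_pow_right₀ hC (by omega)
      · rintro ⟨i, i'⟩
        show ((g * g' : ℕ) : ℚ⟦X⟧) * (ps T ^ s * hd s (y i * w i')) = _
        rw [hd_mul, Finset.mul_sum, Finset.mul_sum]
        have e1 : ∀ p ∈ antidiagonal s, ((g * g' : ℕ) : ℚ⟦X⟧) * (ps T ^ s * (hd p.1 (y i) * hd p.2 (w i'))) =
            ∑ j : ι, ∑ j' : κ, ps (G p.1 i j * G' p.2 i' j') * (y j * w j') := by
          intro p hp
          rw [Finset.HasAntidiagonal.mem_antidiagonal] at hp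
          have e2 : ((g * g' : ℕ) : ℚ⟦X⟧) * (ps T ^ s * (hd p.1 (y i) * hd p.2 (w i'))) =
            ((g : ℚ⟦X⟧) * (ps T ^ p.1 * hd p.1 (y i))) * ((g' : ℚ⟦X⟧) * (ps T ^ p.2 * hd p.2 (w i'))) := by
            rw [← hp, pow_add]
            push_cast
            ring
          rw [e2, h3 p.1 (by omega) i, h3' p.2 (by omega) i', Finset.sum_mul_sum]
          refine Finset.sum_congr rfl fun j _ => Finset.sum_congr rfl fun j' _ => ?_
          rw [ps_mul]
          ring
        rw [Finset.sum_congr rfl e1, Fintype.sum_prod_type, Finset.sum_comm]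
        refine Finset.sum_congr rfl fun j _ => ?_
        rw [Finset.sum_comm]
        refine Finset.sum_congr rfl fun j' _ => ?_
        show _ = ps (∑ p ∈ antidiagonal s, G p.1 i j * G' p.2 i' j') * (y j * w j')
        rw [ps_sum, Finset.sum_mul]

theorem t_enl : T_enl := by
  intro q q'
  refine ⟨2 * q' + q + 3, ?_⟩
  intro ι _ C T T' y hy hT' hT'c
  have hC := hy.one_le
  have hC0 : 0 < C := zero_lt_one.trans_le hC
  have h2C : 1 ≤ 2 * C := by linarith
  have hCC : C ≤ (2 * C) ^ (2 * q' + q + 3) := by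
    calc C ≤ 2 * C := by linarith
      _ = (2 * C) ^ 1 := (pow_one _).symm
      _ ≤ _ := pow_le_pow_right₀ h2C (by omega)
  have hBT : Bd q C T := ⟨hy.degT, hy.sizeT⟩
  have hBT' : Bd q' C T' := ⟨hT', hT'c⟩
  have hC2 : ∀ m : ℕ, C ^ (m + 1) ≤ ((2 * C) ^ (2 * q' + q + 3)) ^ (m + 1) := fun m =>
    pow_le_pow_left₀ hC0.le hCC _
  refine ⟨one_le_pow₀ h2C, (hBT.mul hBT').1, fun l => ((hBT.mul hBT').2 l).trans ?_,
    fun i m => (hy.size i m).trans (hC2 m), ?_, ?_⟩
  · calc ((q : ℝ) + 1) * (C * C) ≤ 2 ^ q * (C * C) := mul_le_mul_of_nonneg_right (succ_le_two_pow q) (by positivity)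
      _ ≤ (2 * C) ^ q * (2 * C) ^ 2 := by
          refine mul_le_mul (pow_le_pow_left₀ (by norm_num) (by linarith) _) (by nlinarith) (by positivity) (by positivity)
      _ = (2 * C) ^ (q + 2) := by rw [pow_add]
      _ ≤ _ := pow_le_pow_right₀ h2C (by omega)
  · intro m
    obtain ⟨d, hd0, hd, hd'⟩ := hy.den m
    exact ⟨d, hd0, hd.trans (hC2 m), hd'⟩
  · intro k
    obtain ⟨g, hg0, hg, hg'⟩ := hy.der k
    refine ⟨g, hg0, hg.trans (hC2 k), fun s hs => ?_⟩
    obtain ⟨G, h1, h2, h3⟩ := hg' s hs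
    have hB : ∀ i j, Bd (q' * s + q * s) ((q' * s + 1) * (((q' + 1) * C) ^ s * C ^ (k + 1))) (T' ^ s * G i j) := by
      intro i j
      have := (hBT'.pow s).mul (show Bd (q * s) (C ^ (k + 1)) (G i j) from ⟨h1 i j, h2 i j⟩)
      push_cast at this
      exact this
    refine ⟨fun i j => T' ^ s * G i j, fun i j => (hB i j).1.trans (le_of_eq (by ring)), fun i j l =>
      ((hB i j).2 l).trans ?_, fun i => ?_⟩
    · have e4 : (q' : ℝ) * s + 1 ≤ (2 ^ q') ^ (k + 1) := by
        have := succ_le_two_pow (q' * s)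
        push_cast at this
        refine this.trans ?_
        rw [← pow_mul]
        exact pow_le_pow_right₀ (by norm_num) (Nat.mul_le_mul_left _ (by omega))
      have e5 : (((q' : ℝ) + 1) * C) ^ s ≤ (2 ^ q' * C) ^ (k + 1) := by
        refine (pow_le_pow_left₀ (by positivity) (mul_le_mul_of_nonneg_right (succ_le_two_pow q') hC0.le) _).trans ?_
        refine pow_le_pow_right₀ ?_ (by omega)
        have : (1 : ℝ) ≤ 2 ^ q' := one_le_pow₀ (by norm_num)
        nlinarith
      calc ((q' : ℝ) * s + 1) * (((q' + 1) * C) ^ s * C ^ (k + 1))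
          ≤ (2 ^ q') ^ (k + 1) * ((2 ^ q' * C) ^ (k + 1) * C ^ (k + 1)) := by
            refine mul_le_mul e4 ?_ (by positivity) (by positivity)
            exact mul_le_mul_of_nonneg_right e5 (by positivity)
        _ = (2 ^ (2 * q') * C ^ 2) ^ (k + 1) := by
            rw [← mul_pow, ← mul_pow]
            congr 1
            rw [show 2 * q' = q' + q' by ring, pow_add]
            ring
        _ ≤ _ := by
            refine pow_le_pow_left₀ (by positivity) ?_ _
            rw [mul_pow]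
            exact mul_le_mul (pow_le_pow_right₀ (by norm_num) (by omega)) (pow_le_pow_right₀ hC (by omega))
              (by positivity) (by positivity)
    · have e1 : (g : ℚ⟦X⟧) * (ps (T * T') ^ s * hd s (y i)) = ps T' ^ s * ((g : ℚ⟦X⟧) * (ps T ^ s * hd s (y i))) := by
        rw [ps_mul, mul_pow]
        ring
      rw [e1, h3 i, Finset.mul_sum]
      refine Finset.sum_congr rfl fun j _ => ?_
      rw [ps_mul, ps_pow]
      ring

theorem t_fam : T_fam := by
  intro N q
  refine ⟨2 * N + 3, ?_⟩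
  intro ι κ _ _ C T y w M M' hι hκ hy hM hM' hw hyw
  have hC := hy.one_le
  have hC0 : 0 < C := zero_lt_one.trans_le hC
  have h2C : 1 ≤ 2 * C := by linarith
  have hCC : C ≤ (2 * C) ^ (2 * N + 3) := by
    calc C ≤ 2 * C := by linarith
      _ = (2 * C) ^ 1 := (pow_one _).symm
      _ ≤ _ := pow_le_pow_right₀ h2C (by omega)
  have hC2 : ∀ m : ℕ, C ^ (m + 1) ≤ ((2 * C) ^ (2 * N + 3)) ^ (m + 1) := fun m =>
    pow_le_pow_left₀ hC0.le hCC _
  have hN : (Fintype.card ι : ℝ) ≤ 2 ^ N := by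
    have h1 : (Fintype.card ι : ℝ) ≤ N := by exact_mod_cast hι
    have := succ_le_two_pow N
    linarith
  refine ⟨one_le_pow₀ h2C, hy.degT, fun l => (hy.sizeT l).trans hCC, ?_, ?_, ?_⟩
  · intro j m
    rw [hw j]
    have e1 : (coeff m (∑ i, (M j i : ℚ⟦X⟧) * y i) : ℚ) = ∑ i, (M j i : ℚ) * coeff m (y i) := by
      rw [map_sum]
      refine Finset.sum_congr rfl fun i _ => ?_
      have : (M j i : ℚ⟦X⟧) = PowerSeries.C (M j i : ℚ) := by simp
      rw [this, coeff_C_mul]
    rw [e1]
    push_cast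
    refine (Finset.abs_sum_le_sum_abs _ _).trans ?_
    refine (Finset.sum_le_card_nsmul _ _ (C * C ^ (m + 1)) fun i _ => ?_).trans ?_
    · rw [abs_mul]
      exact mul_le_mul (hM j i) (hy.size i m) (abs_nonneg _) hC0.le
    · rw [nsmul_eq_mul, Finset.card_univ]
      calc (Fintype.card ι : ℝ) * (C * C ^ (m + 1)) ≤ (2 ^ N) ^ (m + 1) * (C ^ (m + 1) * C ^ (m + 1)) := by
            refine mul_le_mul (hN.trans (le_self_pow₀ (one_le_pow₀ (by norm_num)) (by omega))) ?_ (by positivity)
              (by positivity)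
            exact mul_le_mul_of_nonneg_right (le_self_pow₀ hC (by omega)) (by positivity)
        _ = (2 ^ N * C ^ 2) ^ (m + 1) := by
            rw [← mul_pow, ← mul_pow]
            congr 1
            ring
        _ ≤ _ := by
            refine pow_le_pow_left₀ (by positivity) ?_ _
            rw [mul_pow]
            exact mul_le_mul (pow_le_pow_right₀ (by norm_num) (by omega)) (pow_le_pow_right₀ hC (by omega))
              (by positivity) (by positivity)
  · intro m
    obtain ⟨d, hd0, hd, hd'⟩ := hy.den m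
    refine ⟨d, hd0, hd.trans (hC2 m), fun j l hl => ?_⟩
    choose a ha using fun i => hd' i l hl
    refine ⟨∑ i, M j i * a i, ?_⟩
    rw [hw j, map_sum, Finset.mul_sum]
    push_cast
    refine Finset.sum_congr rfl fun i _ => ?_
    have : (M j i : ℚ⟦X⟧) = PowerSeries.C (M j i : ℚ) := by simp
    rw [this, coeff_C_mul, ← ha i]
    ring
  · intro k
    obtain ⟨g, hg0, hg, hg'⟩ := hy.der k
    refine ⟨g, hg0, hg.trans (hC2 k), fun s hs => ?_⟩
    obtain ⟨G, h1, h2, h3⟩ := hg' s hs
    have hB : ∀ j j', Bd (q * s) (Fintype.card ι * (Fintype.card ι * (C * (C * C ^ (k + 1)))))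
        (∑ i, ∑ i', Polynomial.C (M j i) * (Polynomial.C (M' i' j') * G i i')) := by
      intro j j'
      rw [← Finset.card_univ]
      refine Bd.sum _ fun i _ => Bd.sum _ fun i' _ => ?_
      exact Bd.C_mul (Bd.C_mul ⟨h1 i i', h2 i i'⟩ (hM' i' j')) (hM j i)
    refine ⟨fun j j' => ∑ i, ∑ i', Polynomial.C (M j i) * (Polynomial.C (M' i' j') * G i i'),
      fun j j' => (hB j j').1, fun j j' l => ((hB j j').2 l).trans ?_, fun j => ?_⟩
    · calc (Fintype.card ι : ℝ) * (Fintype.card ι * (C * (C * C ^ (k + 1))))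
          ≤ (2 ^ N) ^ (k + 1) * ((2 ^ N) ^ (k + 1) * (C ^ (k + 1) * (C ^ (k + 1) * C ^ (k + 1)))) := by
            have e1 : (Fintype.card ι : ℝ) ≤ (2 ^ N) ^ (k + 1) :=
              hN.trans (le_self_pow₀ (one_le_pow₀ (by norm_num)) (by omega))
            have e2 : C ≤ C ^ (k + 1) := le_self_pow₀ hC (by omega)
            refine mul_le_mul e1 (mul_le_mul e1 ?_ (by positivity) (by positivity)) (by positivity) (by positivity)
            refine mul_le_mul e2 ?_ (by positivity) (by positivity)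
            exact mul_le_mul_of_nonneg_right e2 (by positivity)
        _ = (2 ^ (2 * N) * C ^ 3) ^ (k + 1) := by
            rw [← mul_pow, ← mul_pow, ← mul_pow, ← mul_pow]
            congr 1
            rw [show 2 * N = N + N by ring, pow_add]
            ring
        _ ≤ _ := by
            refine pow_le_pow_left₀ (by positivity) ?_ _
            rw [mul_pow]
            exact mul_le_mul (pow_le_pow_right₀ (by norm_num) (by omega)) (pow_le_pow_right₀ hC (by omega))
              (by positivity) (by positivity)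
    · rw [hw j, hd_sum, Finset.mul_sum, Finset.mul_sum]
      have e1 : ∀ i ∈ Finset.univ, (g : ℚ⟦X⟧) * (ps T ^ s * hd s ((M j i : ℚ⟦X⟧) * y i)) =
          ∑ i', ∑ j', (M j i : ℚ⟦X⟧) * (ps (G i i') * ((M' i' j' : ℚ⟦X⟧) * w j')) := by
        intro i _
        have e2 : (M j i : ℚ⟦X⟧) = PowerSeries.C (M j i : ℚ) := by simp
        have e3 : hd s ((M j i : ℚ⟦X⟧) * y i) = (M j i : ℚ⟦X⟧) * hd s (y i) := by
          rw [e2, hd_C_mul]
        have e4 : (g : ℚ⟦X⟧) * (ps T ^ s * hd s ((M j i : ℚ⟦X⟧) * y i)) =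
            (M j i : ℚ⟦X⟧) * ((g : ℚ⟦X⟧) * (ps T ^ s * hd s (y i))) := by
          rw [e3]; ring
        rw [e4, h3 i, Finset.mul_sum]
        refine Finset.sum_congr rfl fun i' _ => ?_
        rw [hyw i', Finset.mul_sum, Finset.mul_sum]
      rw [Finset.sum_congr rfl e1]
      simp only [ps_sum, Finset.sum_mul, ps_mul, ps_C]
      rw [Finset.sum_comm' (s := Finset.univ) (t := fun _ => Finset.univ) (t' := Finset.univ) (s' := fun _ => Finset.univ)
        (by simp)]
      rw [Finset.sum_comm]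
      symm
      rw [Finset.sum_comm]
      refine Finset.sum_congr rfl fun i _ => ?_
      rw [Finset.sum_comm]
      refine Finset.sum_congr rfl fun i' _ => ?_
      refine Finset.sum_congr rfl fun j' _ => ?_
      ring

end Pool.Agent.Y113
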